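import Pool.Agent.Helper75.KS.KSG

/-!
# The Kahn-Saks conjecture: two nearly perfect comparisons
-/

namespace Pool.Agent.Helper75.KS

open MeasureTheory Filter Topology Finset
open Pool.Agent.Helper44.KS
open Pool.Agent.Helper89.GP (LX po Ex Pr hh mem_LX Pr_def Pr_split po_lt Pr_eq_zero Pr_congr Pr_true
  Pr_add card_pos_real)

/-- Two consecutive comparisons which are nearly perfect. -/
def TwB (ε : ℝ) {n : ℕ} (R : Fin n → Fin n → Prop) : Prop :=
  ∃ a b : Fin n, a ≠ b ∧ ∀ u v, ((u = a ∧ v = b) ∨ (u = b ∧ v = a)) →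
    ∃ c d : Fin n, c ≠ d ∧ ∀ w z, ((w = c ∧ z = d) ∨ (w = d ∧ z = c)) →
      |(((LX R).filter fun σ => σ u < σ v).card : ℝ) - ((LX R).card : ℝ) / 2| ≤
        ε * ((LX R).card : ℝ) ∧
      |(((LX R).filter fun σ => σ u < σ v ∧ σ w < σ z).card : ℝ) - ((LX R).card : ℝ) / 4| ≤
        ε * ((LX R).card : ℝ)

variable {n : ℕ}

/-- The two orders of a balanced pair. -/
theorem bal_cards {R : Fin n → Fin n → Prop} (hne : (LX R).Nonempty) {u v : Fin n} {ε : ℝ}
    (huv : u ≠ v) (hp : |(Pr R fun σ => po σ u < po σ v) - 1 / 2| ≤ ε) :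
    ∀ w z, ((w = u ∧ z = v) ∨ (w = v ∧ z = u)) →
      |(((LX R).filter fun σ => σ w < σ z).card : ℝ) - ((LX R).card : ℝ) / 2| ≤
        ε * ((LX R).card : ℝ) := by
  have hpos : (0 : ℝ) < (LX R).card := card_pos_real hne
  have hsum : Pr R (fun _ => True) = (Pr R fun σ => po σ u < po σ v) +
      Pr R fun σ => po σ v < po σ u := by
    apply Pr_add
    · intro σ _
      simp only [true_iff]
      exact Pool.Agent.Helper89.GP.po_lt_or huv
    · intro σ _ h1 h2
      exact lt_asymm h1 h2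
  rw [Pr_true hne] at hsum
  have key : ∀ w z : Fin n, |(Pr R fun σ => po σ w < po σ z) - 1 / 2| ≤ ε →
      |(((LX R).filter fun σ => σ w < σ z).card : ℝ) - ((LX R).card : ℝ) / 2| ≤
        ε * ((LX R).card : ℝ) := by
    intro w z h
    have e : (Pr R fun σ => po σ w < po σ z) =
        (((LX R).filter fun σ => σ w < σ z).card : ℝ) / (LX R).card := by
      rw [Pr_def]
      rfl
    rw [e] at h
    have e2 : (((LX R).filter fun σ => σ w < σ z).card : ℝ) - ((LX R).card : ℝ) / 2 =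
        ((((LX R).filter fun σ => σ w < σ z).card : ℝ) / (LX R).card - 1 / 2) *
          ((LX R).card : ℝ) := by
      field_simp
    rw [e2, abs_mul, abs_of_pos hpos]
    exact mul_le_mul_of_nonneg_right h hpos.le
  rintro w z (⟨rfl, rfl⟩ | ⟨rfl, rfl⟩)
  · exact key _ _ hp
  · apply key
    rw [abs_le] at hp ⊢
    constructor <;> linarith [hp.1, hp.2]

/-- Composition of two nearly perfect comparisons. -/
theorem two_num {N N1 N2 ε : ℝ} (h0 : 0 ≤ ε) (hN : 0 ≤ N) (h1 : |N1 - N / 2| ≤ ε / 2 * N) (h1' : N1 ≤ N)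
    (h2 : |N2 - N1 / 2| ≤ ε / 2 * N1) : |N1 - N / 2| ≤ ε * N ∧ |N2 - N / 4| ≤ ε * N := by
  have h3 : ε / 2 * N1 ≤ ε / 2 * N := mul_le_mul_of_nonneg_left h1' (by linarith)
  have h4 : 0 ≤ ε * N := mul_nonneg h0 hN
  rw [abs_le] at h1 h2
  constructor
  · rw [abs_le]
    constructor <;> linarith [h1.1, h1.2]
  · rw [abs_le]
    constructor <;> linarith [h1.1, h1.2, h2.1, h2.2]

/-- Adding one relation. -/
def adr (R : Fin n → Fin n → Prop) (u v : Fin n) : Fin n → Fin n → Prop :=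
  fun p q => R p q ∨ (p = u ∧ q = v)

theorem LX_adr (R : Fin n → Fin n → Prop) (u v : Fin n) :
    LX (adr R u v) = (LX R).filter fun σ => σ u < σ v := by
  ext σ
  rw [mem_filter, mem_LX, mem_LX]
  constructor
  · intro h
    exact ⟨fun p q hpq => h p q (Or.inl hpq), h u v (Or.inr ⟨rfl, rfl⟩)⟩
  · rintro ⟨h, huv⟩ p q (hpq | ⟨rfl, rfl⟩)
    · exact h p q hpq
    · exact huv

/-- The fluctuations survive a comparison. -/
def StbStmt : Prop := ∃ c S1 : ℝ, 0 < c ∧ ∀ (n : ℕ) (R : Fin n → Fin n → Prop) (u v : Fin n),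
  (LX R).Nonempty → (∃ x, S1 ≤ dev R x) → 2 / 5 ≤ (Pr R fun σ => po σ u < po σ v) →
  ∀ x, ∃ z, c * dev R x ≤ dev (adr R u v) z

/-- Two nearly perfect comparisons in posets with large fluctuations. -/
def TwsStmt : Prop := ∀ ε : ℝ, 0 < ε → ∃ S0 : ℝ, ∀ (n : ℕ) (R : Fin n → Fin n → Prop),
  (LX R).Nonempty → (∃ x, S0 ≤ dev R x) → TwB ε R

theorem tws (hKSG : KsgStmt) (hSTB : StbStmt) : TwsStmt := by
  classical
  intro ε hε
  obtain ⟨c, S1, hc, hS⟩ := hSTB
  have hδ : 0 < min (ε / 2) (1 / 10) := by positivity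
  obtain ⟨S0, hS0⟩ := hKSG (min (ε / 2) (1 / 10)) hδ
  refine ⟨max S0 (max S1 (S0 / c)), ?_⟩
  rintro n R hne ⟨x, hx⟩
  obtain ⟨a, b, hab, hp⟩ := hS0 n R hne ⟨x, (le_max_left _ _).trans hx⟩
  refine ⟨a, b, hab, ?_⟩
  intro u v huv
  have hb1 := bal_cards hne hab hp u v huv
  have hpos : (0 : ℝ) < (LX R).card := card_pos_real hne
  have hle1 : min (ε / 2) (1 / 10) ≤ ε / 2 := min_le_left _ _
  have hle2 : min (ε / 2) (1 / 10) ≤ 1 / 10 := min_le_right _ _
  have hb1' : |(((LX R).filter fun σ => σ u < σ v).card : ℝ) - ((LX R).card : ℝ) / 2| ≤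
      1 / 10 * ((LX R).card : ℝ) := hb1.trans (mul_le_mul_of_nonneg_right hle2 hpos.le)
  have hPr : 2 / 5 ≤ (Pr R fun σ => po σ u < po σ v) := by
    rw [Pr_def, le_div_iff₀ hpos]
    rw [abs_le] at hb1'
    have : (((LX R).filter fun σ => po σ u < po σ v).card : ℝ) =
        (((LX R).filter fun σ => σ u < σ v).card : ℝ) := rfl
    rw [this]
    linarith [hb1'.1]
  obtain ⟨z0, hz0⟩ := hS n R u v hne
    ⟨x, ((le_max_left _ _).trans (le_max_right _ _)).trans hx⟩ hPr x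
  have hLX := LX_adr R u v
  have hne' : (LX (adr R u v)).Nonempty := by
    rw [← Finset.card_pos, hLX]
    have h1 : (0 : ℝ) < (((LX R).filter fun σ => σ u < σ v).card : ℝ) := by
      rw [abs_le] at hb1'
      linarith [hb1'.1]
    exact_mod_cast h1
  have hdev : S0 ≤ dev (adr R u v) z0 := by
    refine le_trans ?_ hz0
    have h1 : S0 / c ≤ dev R x := ((le_max_right _ _).trans (le_max_right _ _)).trans hx
    rw [div_le_iff₀ hc] at h1
    linarith
  obtain ⟨c', d', hcd, hp'⟩ := hS0 n (adr R u v) hne' ⟨z0, hdev⟩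
  refine ⟨c', d', hcd, ?_⟩
  intro w z hwz
  have hb2 := bal_cards hne' hcd hp' w z hwz
  rw [hLX, filter_filter] at hb2
  have hN1 : (((LX R).filter fun σ => σ u < σ v).card : ℝ) ≤ ((LX R).card : ℝ) := by
    exact_mod_cast card_filter_le _ _
  exact two_num hε.le hpos.le (hb1.trans (mul_le_mul_of_nonneg_right hle1 hpos.le)) hN1
    (hb2.trans (mul_le_mul_of_nonneg_right hle1 (Nat.cast_nonneg _)))

end Pool.Agent.Helper75.KS
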