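import Pool.Agent.Helper44.KS.Defs
import Pool.Agent.Helper89.GP.Basic

/-!
# The Kahn-Saks conjecture: goals, part B (finite posets, final statements)

Posets are relations `R` on `Fin n`; `LX R`, `po`, `Ex`, `Pr`, `hh` are in
Pool/Agent/Helper89/GP/Defs.lean, the elementary facts about them (`mem_LX`, `Pr_def`, `Pr_eq_Ex`,
`Ex_add`, `Ex_mono`, ...) in Pool/Agent/Helper89/GP/Basic.lean. Every goal may be used as a hypothesis
where the docstring says so.
-/

namespace Pool.Agent.Helper75.KS

open MeasureTheory Filter Topology Finset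
open Pool.Agent.Helper44.KS
open Pool.Agent.Helper89.GP (LX po Ex Pr hh)

noncomputable section

variable {n : ℕ}

/-- The mean deviation of the position. -/
def dev (R : Fin n → Fin n → Prop) (z : Fin n) : ℝ := Ex R fun σ => |(po σ z : ℝ) - hh R z|

/-- Strict orders. -/
structure Spo (R : Fin n → Fin n → Prop) : Prop where
  tr : ∀ a b c, R a b → R b c → R a c
  ir : ∀ a, ¬ R a a

/-- The minimal elements of `X`. -/
def mn (R : Fin n → Fin n → Prop) (X : Finset (Fin n)) : Finset (Fin n) := by
  classical exact X.filter fun z => ∀ y ∈ X, ¬ R y z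

/-- A poset without `c`-balanced pairs, in standard position: `x` has the largest deviation, and there
are at least `K * dev R x` elements on both sides of `x`. -/
structure Std (c K : ℝ) (R : Fin n → Fin n → Prop) (x : Fin n) : Prop where
  ne : (LX R).Nonempty
  mx : ∀ z, dev R z ≤ dev R x
  one : 1 ≤ dev R x
  nb : ∀ u v, u ≠ v → c < |(Pr R fun σ => po σ u < po σ v) - 1 / 2|
  lo : ∀ σ ∈ LX R, K * dev R x ≤ po σ x
  hi : ∀ σ ∈ LX R, po σ x + K * dev R x ≤ n

/-! ### The deviation is at least the width / 10 -/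

/-- EHA. The inequality of Edelman, Hibi and Stanley for a function `f` which satisfies the recursion of
the number of linear extensions. Proof: strong induction on the cardinality of `X`.
Let `A0 = A ∩ mn X`; `A0 ⊆ B` (take `z = a` in the last hypothesis); subtract the terms of `A0` on
both sides: it is enough to treat `A1 = A \ A0` and `B1 = B \ A0` (the last hypothesis holds for them:
if `z ∈ mn X` and `R z a`, `a ∈ A1`, then `z ∉ A0` since `A` is an antichain). So let
`A ∩ mn X = ∅`. If `A` is empty the left side is `0`. Let `x ∈ A`. As `x` is not minimal,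
`X.erase x` is not empty and `mn (X.erase x) = mn X` (if `z` is minimal in `X.erase x` and `R x z`,
take `y ∈ X` with `R y x`; then `R y z` and `y ≠ x`, a contradiction). So
`f (X.erase x) = ∑ z ∈ mn X, f ((X.erase z).erase x)` and the left side is
`∑ z ∈ mn X, ∑ x ∈ A, f ((X.erase z).erase x)`. For `z ∈ mn X \ B` apply the induction hypothesis to
`X.erase z`, `A`, `B`: `∑ x ∈ A, f ((X.erase z).erase x) ≤ ∑ b ∈ B, f ((X.erase z).erase b)` (here
`z` is below no element of `A`, and a minimal element of `X.erase z` which is not in `mn X` is above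
`z`, so it is not below an element of `A`). For `z ∈ B` let `N z = mn (X.erase z) \ mn X` (its
elements are above `z`) and apply the induction hypothesis to `X.erase z`, `A`, `B.erase z ∪ N z`:
`∑ x ∈ A, f ((X.erase z).erase x) ≤ ∑ b ∈ B.erase z, f ((X.erase z).erase b) +
∑ b ∈ N z, f ((X.erase z).erase b)`. On the other hand, for `z ∈ B` the recursion gives
`f (X.erase z) = ∑ b ∈ (mn X).erase z, f ((X.erase z).erase b) + ∑ b ∈ N z, f ((X.erase z).erase b)`
(`X.erase z` is not empty, it contains `A`; `mn (X.erase z) = (mn X).erase z ∪ N z`, a disjoint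
union). The sum over `z ∈ B` of the first term is
`∑ z ∈ B, ∑ b ∈ B.erase z, .. + ∑ z ∈ B, ∑ b ∈ mn X \ B, ..`, and the second part is
`∑ z ∈ mn X \ B, ∑ b ∈ B, f ((X.erase z).erase b)` (`Finset.erase_right_comm`). So the two sides
agree. -/
def EhaStmt : Prop := ∀ (n : ℕ) (R : Fin n → Fin n → Prop) (f : Finset (Fin n) → ℕ), Spo R →
  (∀ X : Finset (Fin n), X.Nonempty → f X = ∑ z ∈ mn R X, f (X.erase z)) →
  ∀ X A B : Finset (Fin n), A ⊆ X → (∀ a ∈ A, ∀ b ∈ A, ¬ R a b) → B ⊆ mn R X →
  (∀ a ∈ A, ∀ z ∈ mn R X, (z = a ∨ R z a) → z ∈ B) →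
  ∑ x ∈ A, f (X.erase x) ≤ ∑ z ∈ B, f (X.erase z)

/-- EHB. The number of linear extensions of the induced order. Proof: let `f X` be the number of the
lists `l` without repetition whose elements are exactly those of `X` and with
`l.Pairwise (fun a b => ¬ R b a)` (a finite set: it consists of permutations of `X.toList`).
Recursion: such a list is not empty if `X` is not; `z :: l'` is such a list for `X` iff `z ∈ mn R X`
and `l'` is such a list for `X.erase z`. For `X = univ` the map `σ ↦ List.ofFn σ.symm` is a bijection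
from `LX R` onto these lists. For the last claim the map
`σ ↦ (List.ofFn σ.symm).erase x` from the set of the `σ ∈ LX R` with `po σ x = k` to the lists for
`univ.erase x` is injective (the list of `σ` is obtained from its image by inserting `x` at the place
`k`). -/
def EhbStmt : Prop := ∀ (n : ℕ) (R : Fin n → Fin n → Prop), Spo R →
  ∃ f : Finset (Fin n) → ℕ, (∀ X : Finset (Fin n), X.Nonempty →
    f X = ∑ z ∈ mn R X, f (X.erase z)) ∧ f univ = (LX R).card ∧
    ∀ (x : Fin n) (k : ℕ), ((LX R).filter fun σ => po σ x = k).card ≤ f (univ.erase x)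

/-- SCA. An element of an antichain whose position is spread out. Proof (may assume EHA, EHB): EHA for
`X = univ`, `B = mn R univ` gives `∑ x ∈ A, f (univ.erase x) ≤ f univ = #(LX R)` (`n ≠ 0` as `A` is not
empty); take `x ∈ A` with the least `f (univ.erase x)`. -/
def ScaStmt : Prop := ∀ (n : ℕ) (R : Fin n → Fin n → Prop) (A : Finset (Fin n)), Spo R →
  A.Nonempty → (∀ a ∈ A, ∀ b ∈ A, ¬ R a b) →
  ∃ x ∈ A, ∀ k : ℕ, A.card * ((LX R).filter fun σ => po σ x = k).card ≤ (LX R).card

/-- LXN. Every strict order has a linear extension. Proof: for example by EHB (may be assumed):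
`f univ > 0` by induction, since a nonempty set has a minimal element and `f ∅ > 0`...; or directly:
`Finite` well-founded induction, or Szpilrajn (`Szpilrajn extension` in Mathlib) together with
`Fintype.orderIsoFinOfCardEq` (`monoEquivOfFin`) for the linear order on `Fin n` obtained. -/
def LxnStmt : Prop := ∀ (n : ℕ) (R : Fin n → Fin n → Prop), Spo R → (LX R).Nonempty

/-- SCB. Proof (may assume SCA, LXN): let `w = #A`, `x` as in SCA, so `Pr (po x = k) ≤ 1/w` for all
`k`. With `t = w/4`: the interval `[h - t, h + t]`, `h = hh R x`, contains at most `2 t + 1` integers,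
so `Pr (|po x - h| ≤ t) ≤ (2 t + 1)/w = 1/2 + 1/w` and
`dev R x ≥ t (1/2 - 1/w) = w/8 - 1/4 ≥ w/10` as `w ≥ 10`. -/
def ScbStmt : Prop := ∀ (n : ℕ) (R : Fin n → Fin n → Prop) (A : Finset (Fin n)), Spo R →
  10 ≤ A.card → (∀ a ∈ A, ∀ b ∈ A, ¬ R a b) → ∃ x ∈ A, (A.card : ℝ) / 10 ≤ dev R x

/-! ### Two facts about the mean positions -/

/-- CNT. Proof: let `Z` be the set in question. For `z ∈ Z` Markov gives
`Pr (|po z - hh z| ≤ 4 S) ≥ 3/4`, so the expected number of `z ∈ Z` with
`u - 4 S ≤ po z < u + 5 S` is at least `3/4 #Z`; but this number is always at most `9 S + 1` (the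
positions are different integers in a half-open interval of length `9 S`). So
`#Z ≤ 4/3 (9 S + 1) ≤ 15 S`. -/
def CntStmt : Prop := ∀ (n : ℕ) (R : Fin n → Fin n → Prop) (S u : ℝ), (LX R).Nonempty → 1 ≤ S →
  (∀ z, dev R z ≤ S) →
  ((univ.filter fun z : Fin n => u ≤ hh R z ∧ hh R z < u + S).card : ℝ) ≤ 15 * S

/-- ENE. Proof: `po σ x = ∑ q, 1[po σ q < po σ x]`, so `hh R x = ∑ q, π_q` with
`π_q = Pr (po q < po x)`, and `|po σ x - hh R x| ≤ ∑ q, |1[po σ q < po σ x] - π_q|`, whose
expectation is `∑ q, 2 π_q (1 - π_q)`. -/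
def EneStmt : Prop := ∀ (n : ℕ) (R : Fin n → Fin n → Prop) (x : Fin n), (LX R).Nonempty →
  dev R x ≤ 2 * ∑ q, (Pr R fun σ => po σ q < po σ x) * (1 - Pr R fun σ => po σ q < po σ x)

/-! ### Padding -/

/-- PAD. Proof: let `N` be a natural number with `N ≥ |K| * dev R x + 1` and `n' = N + n + N`. Let
`R' a b` hold iff (`a < b` and one of `a, b` is `< N` or `≥ N + n`) or (both are in `[N, N + n)` and
`R (a - N) (b - N)`). For `σ ∈ LX R'` the elements outside `[N, N + n)` are fixed by `σ`, and
`σ ↦ (a ↦ σ (a + N) - N)` is a bijection from `LX R'` onto `LX R`. So for `a, b` in the middle part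
everything is as for `R` (`po' = N + po`), and for `u ≠ v`, not both in the middle part, the
probability is `0` or `1`, so its distance from `1/2` is `1/2 > c`; `dev R' z = 0` for the `z` outside
the middle part. `x' = N + x`. -/
def PadStmt : Prop := ∀ (n : ℕ) (R : Fin n → Fin n → Prop) (x : Fin n) (c K : ℝ), c < 1 / 2 →
  (LX R).Nonempty → (∀ z, dev R z ≤ dev R x) → 1 ≤ dev R x →
  (∀ u v, u ≠ v → c < |(Pr R fun σ => po σ u < po σ v) - 1 / 2|) →
  ∃ (n' : ℕ) (R' : Fin n' → Fin n' → Prop) (x' : Fin n'), Std c K R' x' ∧ dev R' x' = dev R x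

/-- SYS. From posets to systems (helper89's part). -/
def SysStmt : Prop := ∀ (c : ℝ) (n : ℕ → ℕ) (R : ∀ N, Fin (n N) → Fin (n N) → Prop)
  (x : ∀ N, Fin (n N)), 0 < c → (∀ N : ℕ, Std c (N : ℝ) (R N) (x N)) →
  Tendsto (fun N => dev (R N) (x N)) atTop atTop →
  ∃ Z : ℕ → KSys c, Tendsto (fun N => (Z N).S) atTop atTop ∧ Filling Z

/-! ### Final statements -/

/-- KSF. Balanced pairs in posets of large width. Proof (may assume SCB, LXN, PAD, SYS, S_MAIN): if
`ε ≥ 1/2` take `W = 2` and any `u ≠ v` (probabilities are in `[0, 1]`). Let `ε < 1/2` and suppose that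
there is no `W`. For every `N` there is an `R` with an antichain of at least `10 (N + 2)` elements
and `ε < |Pr (po u < po v) - 1/2|` for all `u ≠ v`. By SCB some element has `dev ≥ N + 2`; let `x` have
the largest `dev` (`Finset.exists_max_image`). PAD with `K = N` gives a `Std ε N R' x'` with
`dev R' x' ≥ N + 2`. SYS and `S_MAIN` give a contradiction. -/
def KsfStmt : Prop := ∀ ε : ℝ, 0 < ε → ∃ W : ℕ, ∀ (n : ℕ) (R : Fin n → Fin n → Prop), Spo R →
  (∃ A : Finset (Fin n), W ≤ A.card ∧ ∀ a ∈ A, ∀ b ∈ A, ¬ R a b) →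
  ∃ u v, u ≠ v ∧ |(Pr R fun σ => po σ u < po σ v) - 1 / 2| ≤ ε

/-- GPF. The golden partition inequality, in a stronger form. Proof (may assume KSF, LXN): let `W` be
the number of KSF for `ε = 1/100`, and `W0 = 2 W + 2`. Let `a, b` be the pair of KSF for `R`. None of
`R a b`, `R b a` holds (the probability would be `1` or `0`). For the outcome `σ u < σ v` let
`R' p q` hold iff `R p q`, or (`p = u` or `R p u`) and (`q = v` or `R v q`); it is a strict
order (`v = u` and `R v u` are false) and `LX R' = (LX R).filter (σ u < σ v)`. If `A` is an antichain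
of `R`, then the sets `D = {p ∈ A | p = u ∨ R p u}` and `U = {q ∈ A | q = v ∨ R v q}` are disjoint,
and both `A \ D` and `A \ U` are antichains of `R'`; one of them has at least `#A / 2 ≥ W` elements.
The pair `c, d` of KSF for `R'`: for each outcome the number of the `σ` with `σ u < σ v` and
`σ w < σ z` is at most `51/100 #(LX R')`, and `#(LX R') ≤ 51/100 #(LX R)`. -/
def GpfStmt : Prop := ∃ W : ℕ, ∀ (n : ℕ) (R : Fin n → Fin n → Prop), Spo R →
  (∃ A : Finset (Fin n), W ≤ A.card ∧ ∀ a ∈ A, ∀ b ∈ A, ¬ R a b) →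
  ∃ a b : Fin n, a ≠ b ∧ ¬ R a b ∧ ¬ R b a ∧ ∀ u v, ((u = a ∧ v = b) ∨ (u = b ∧ v = a)) →
    ∃ c d : Fin n, c ≠ d ∧ ∀ w z, ((w = c ∧ z = d) ∨ (w = d ∧ z = c)) →
      ((LX R).filter fun σ => σ u < σ v).card +
        ((LX R).filter fun σ => σ u < σ v ∧ σ w < σ z).card ≤ (LX R).card

/-- TRF. Transfer to types. Proof: let `e : α ≃ Fin (Fintype.card α)` (`Fintype.equivFin`) and
`R p q = (e.symm p < e.symm q)`. The map `f ↦ e.symm.trans f` is a bijection from the strictly monotone
`f : α ≃ Fin (Fintype.card α)` onto `LX R`, and ` (e.symm.trans f) (e u) = f u`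
(`Set.ncard_congr` or `Set.ncard_image_of_injective`, `Set.ncard_coe_finset`). -/
def TrfStmt : Prop := ∀ (α : Type) [Fintype α] [PartialOrder α],
  ∃ (e : α ≃ Fin (Fintype.card α)) (R : Fin (Fintype.card α) → Fin (Fintype.card α) → Prop), Spo R ∧
    (∀ a b, R (e a) (e b) ↔ a < b) ∧
    {f : α ≃ Fin (Fintype.card α) | StrictMono (f : α → Fin (Fintype.card α))}.ncard =
      (LX R).card ∧
    (∀ u v : α, {f : α ≃ Fin (Fintype.card α) |
      StrictMono (f : α → Fin (Fintype.card α)) ∧ f u < f v}.ncard =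
      ((LX R).filter fun σ => σ (e u) < σ (e v)).card) ∧
    (∀ u v w z : α, {f : α ≃ Fin (Fintype.card α) |
      StrictMono (f : α → Fin (Fintype.card α)) ∧ f u < f v ∧ f w < f z}.ncard =
      ((LX R).filter fun σ => σ (e u) < σ (e v) ∧ σ (e w) < σ (e z)).card)

/-- The balanced pairs, for types: the first half of the hand-in. -/
def BalStmt : Prop := ∀ ε : ℝ, 0 < ε → ∃ W : ℕ, ∀ (α : Type) [Fintype α] [PartialOrder α],
  (∃ s : Finset α, IsAntichain (· ≤ ·) (s : Set α) ∧ W ≤ s.card) →
  ∃ x y : α, x ≠ y ∧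
    |(({f : α ≃ Fin (Fintype.card α) |
        StrictMono (f : α → Fin (Fintype.card α)) ∧ f x < f y}.ncard : ℕ) : ℝ) /
      (({f : α ≃ Fin (Fintype.card α) |
        StrictMono (f : α → Fin (Fintype.card α))}.ncard : ℕ) : ℝ) - 1 / 2| ≤ ε

/-- The golden partition inequality for types: the second half of the hand-in. -/
def GolStmt : Prop := ∃ W : ℕ, ∀ (α : Type) [Fintype α] [PartialOrder α],
  (∃ s : Finset α, IsAntichain (· ≤ ·) (s : Set α) ∧ W ≤ s.card) →
  ∃ a b : α, ¬ a ≤ b ∧ ¬ b ≤ a ∧
    ∀ u v : α, ((u = a ∧ v = b) ∨ (u = b ∧ v = a)) →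
      ∃ c d : α, c ≠ d ∧
        ∀ w z : α, ((w = c ∧ z = d) ∨ (w = d ∧ z = c)) →
          {f : α ≃ Fin (Fintype.card α) |
              StrictMono (f : α → Fin (Fintype.card α)) ∧ f u < f v}.ncard
            + {f : α ≃ Fin (Fintype.card α) |
              StrictMono (f : α → Fin (Fintype.card α)) ∧ f u < f v ∧ f w < f z}.ncard
            ≤ {f : α ≃ Fin (Fintype.card α) |
              StrictMono (f : α → Fin (Fintype.card α))}.ncard

/-- FIN. Proof (may assume TRF, KSF, GPF): translate. An antichain `s` of `α` gives the antichain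
`s.map e` of `R`; `Pr R (po σ (e x) < po σ (e y))` is the quotient of the two cardinalities (`Pr_def`;
`po σ a < po σ b` is `σ a < σ b`); `¬ R (e a) (e b)` and `e a ≠ e b` give `¬ a ≤ b`. -/
def FinStmt : Prop := BalStmt ∧ GolStmt

end

end Pool.Agent.Helper75.KS
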