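import Pool.Agent.Helper44.KS.Defs

/-!
# The Kahn-Saks conjecture: goals, part A (laws with log-concave tails, few types)

The definitions are in Pool/Agent/Helper44/KS/Defs.lean. Every goal may be used as a hypothesis where
the docstring says so.
-/

namespace Pool.Agent.Helper75.KS

open MeasureTheory Filter Topology Set Finset
open Pool.Agent.Helper44.KS

noncomputable section

/-! ### Laws with log-concave tails

`m = ∫ u` is the mean, `M = ∫ |u - m|` the mean deviation. -/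

/-- The mean. -/
def mea (ν : Measure ℝ) : ℝ := ∫ u, u ∂ν

/-- The mean deviation. -/
def mdv (ν : Measure ℝ) : ℝ := ∫ u, |u - mea ν| ∂ν

/-- LTA. The tail. Proof: if `M = mdv ν = 0` then `u = m` almost surely and the left side is `0`. Let
`M > 0`. For `s ≤ 3` the right side is at least `2 / √2 > 1`. Let `s > 3`, `l = 2 / (s / 3 + 1)`, so
`0 < l < 1`. The point `m + 3 M` is ` (1 - l) (m - 3 M) + l (m + s M)`, so
`ν (m + 3 M, ∞) ≥ ν (m - 3 M, ∞) ^ (1 - l) * ν (m + s M, ∞) ^ l`. By Markov `ν (m + 3 M, ∞) ≤ 1/3`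
and `ν (m - 3 M, ∞) ≥ 2/3` (Markov with `≥`: `ν {|u - m| ≥ 3 M} ≤ 1/3`). So
`ν (m + s M, ∞) ^ l ≤ (1/3) / (2/3) ^ (1 - l) ≤ (1/2) * (2/3) ^ l ≤ 1/2` and
`ν (m + s M, ∞) ≤ 2 ^ (-(1/l)) = 2 ^ (-(s/6) - 1/2) ≤ 2 ^ (-(s/6))`. The same for the other side with
`lo`. -/
def LtaStmt : Prop := ∀ ν : Measure ℝ, LCR ν → Integrable (fun u : ℝ => u) ν → ∀ s : ℝ, 0 ≤ s →
  ν.real {u | s * mdv ν < |u - mea ν|} ≤ 2 * (2 : ℝ) ^ (-(s / 6))

/-- LMO. The second and the third moment. Proof (may assume LTA): if `M = 0` then `u = m` almost surely.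
Let `M > 0`. Layer cake (`lintegral_rpow_eq_lintegral_meas_lt_mul`, or
`MeasureTheory.lintegral_comp_eq_lintegral_meas_lt_mul`) for `|u - m| / M`:
`∫ (|u - m| / M) ^ k = ∫ s > 0, k s ^ (k-1) ν {|u - m| > s M} ds ≤ ∫ s > 0, 2 k s ^ (k-1) 2 ^ (-(s/6)) ds
= 2 k! (6 / log 2) ^ k`; it is less than `300` for `k = 2` and less than `8000` for `k = 3`
(`6 / log 2 < 8.657`). -/
def LmoStmt : Prop := ∀ ν : Measure ℝ, LCR ν → Integrable (fun u : ℝ => u) ν →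
  Integrable (fun u : ℝ => (u - mea ν) ^ 2) ν ∧ ∫ u, (u - mea ν) ^ 2 ∂ν ≤ 300 * mdv ν ^ 2 ∧
  Integrable (fun u : ℝ => |u - mea ν| ^ 3) ν ∧ ∫ u, |u - mea ν| ^ 3 ∂ν ≤ 8000 * mdv ν ^ 3

/-- LSB. Small balls: an interval of length `h` has mass at most `10 h / M`. Proof: first for the open
interval ` (b, b + h)`, `h > 0`; let `p` be its mass; if `p = 0` nothing is to be proved. Let
`F s = ν (b + s, ∞)`. Then `F h ≤ F 0 - p ≤ F 0 (1 - p)`, and by log-concavity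
`F h ≥ F 0 ^ (1 - h/s) F s ^ (h/s)` for `s > h`, so (if `F 0 > 0`)
`F s ≤ F 0 (F h / F 0) ^ (s/h) ≤ (1 - p) ^ (s/h) ≤ exp (- p s / h)`; for `s ≤ h` use `F s ≤ 1`. So
`∫ (u - b)⁺ = ∫ s > 0, F s ≤ h + h/p ≤ 2 h / p`. The same on the other side:
`∫ (b + h - u)⁺ ≤ 2 h / p`. So `∫ |u - b| ≤ ∫ (u - b)⁺ + ∫ (b + h - u)⁺ ≤ 4 h / p` (as
` (b - u)⁺ ≤ (b + h - u)⁺`) and `M ≤ ∫ |u - b| + |b - m| ≤ 2 ∫ |u - b| ≤ 8 h / p`. For the closed
interval apply this to ` (b - δ, b + h + δ)` and let `δ → 0+` (constant `8 ≤ 10`). -/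
def LsbStmt : Prop := ∀ ν : Measure ℝ, LCR ν → Integrable (fun u : ℝ => u) ν → ∀ b h : ℝ, 0 ≤ h →
  ν.real (Set.Icc b (b + h)) * mdv ν ≤ 10 * h

/-- RAY. Proof: `prob`: `Measurable.isProbabilityMeasure_map` or `Measure.isProbabilityMeasure_map`. The
preimage of `Ioi s` under `d ↦ d p - d q` is open and convex, and convex combinations of two such
sets are in the third: use the field `lc` of `KSys` (with `A, B, C` the preimages of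
`Ioi s`, `Ioi s'`, `Ioi ((1-t) s + t s')`); `map_measureReal_apply`. The same for `Iio`. -/
def RayStmt : Prop := ∀ (c : ℝ) (Z : KSys c) (p q : Fin Z.n),
  LCR (Z.μ.map fun d => d p - d q) ∧
  Integrable (fun u : ℝ => u) (Z.μ.map fun d => d p - d q) ∧
  mea (Z.μ.map fun d => d p - d q) = Z.a p - Z.a q ∧
  mdv (Z.μ.map fun d => d p - d q) = Z.dist p q

/-- TPR. The facts above for the systems. Proof (may assume RAY, LTA, LMO, LSB): the facts for the law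
of `d p - d q`. (With `q = Z.x`, where `d q = 0` almost surely and `Z.a q = 0`, they are facts on a
single displacement, see TPX.) -/
def TprStmt : Prop := ∀ (c : ℝ) (Z : KSys c) (p q : Fin Z.n),
  (∀ s : ℝ, 0 ≤ s → Z.μ.real {d | s * Z.dist p q < |Z.Y d p - Z.Y d q|} ≤
    2 * (2 : ℝ) ^ (-(s / 6))) ∧
  (Integrable (fun d => (Z.Y d p - Z.Y d q) ^ 2) Z.μ ∧
    ∫ d, (Z.Y d p - Z.Y d q) ^ 2 ∂Z.μ ≤ 300 * Z.dist p q ^ 2) ∧
  (Integrable (fun d => |Z.Y d p - Z.Y d q| ^ 3) Z.μ ∧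
    ∫ d, |Z.Y d p - Z.Y d q| ^ 3 ∂Z.μ ≤ 8000 * Z.dist p q ^ 3) ∧
  (∀ b h : ℝ, 0 ≤ h → Z.μ.real {d | b ≤ d p - d q ∧ d p - d q ≤ b + h} * Z.dist p q ≤ 10 * h)

/-- TPX. Proof (may assume TPR): `d Z.x = 0` almost surely (field `ref`), so `Z.a Z.x = 0`,
`Z.Y d Z.x = 0` almost surely and `Z.dist p Z.x = ∫ d, |Z.Y d p| ∂Z.μ`. -/
def TpxStmt : Prop := ∀ (c : ℝ) (Z : KSys c) (p : Fin Z.n),
  Z.a Z.x = 0 ∧ Z.dist p Z.x = ∫ d, |Z.Y d p| ∂Z.μ ∧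
  (∀ s : ℝ, 0 ≤ s → Z.μ.real {d | s * ∫ e, |Z.Y e p| ∂Z.μ < |Z.Y d p|} ≤
    2 * (2 : ℝ) ^ (-(s / 6))) ∧
  (Integrable (fun d => (Z.Y d p) ^ 2) Z.μ ∧
    ∫ d, (Z.Y d p) ^ 2 ∂Z.μ ≤ 300 * (∫ d, |Z.Y d p| ∂Z.μ) ^ 2) ∧
  (Integrable (fun d => |Z.Y d p| ^ 3) Z.μ ∧
    ∫ d, |Z.Y d p| ^ 3 ∂Z.μ ≤ 8000 * (∫ d, |Z.Y d p| ∂Z.μ) ^ 3) ∧
  (∀ b h : ℝ, 0 ≤ h → Z.μ.real {d | b ≤ d p ∧ d p ≤ b + h} * ∫ d, |Z.Y d p| ∂Z.μ ≤ 10 * h)

/-! ### Few types -/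

/-- The weights of DYB: nonnegative, carried by the pairs `i < j < 2 ^ M`, with sum `M`. -/
structure Wts (M : ℕ) (w : ℕ → ℕ → ℝ) : Prop where
  nn : ∀ i j, 0 ≤ w i j
  up : ∀ i j, w i j ≠ 0 → i < j ∧ j < 2 ^ M
  sm : ∑ i ∈ range (2 ^ M), ∑ j ∈ range (2 ^ M), w i j = M

/-- DYB. The dyadic inequality. Proof: for `a : ℕ → ℝ` write `A_M(a) = 2^(-M) ∑ i < 2^M, a i`. The
weights are defined by recursion: `w_0 = 0`; for `i < j < 2^(M+1)`: if both are `< 2^M` then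
`w_(M+1) i j = w_M i j / 2`, if both are `≥ 2^M` then `w_M (i - 2^M) (j - 2^M) / 2`, if
`i < 2^M ≤ j` then `4^(-M)`; their sum is `M/2 + M/2 + 1`. Claim, by induction on `M`:
`∑ w i j (a i b j - a j b i) ≤ l ((A(a²) - A(a)²) + (A(b²) - A(b)²)) + (M/l) (A(a²) + A(b²))`.
`M = 0`: both sides are `0`. Step: let `a0, a1` (`b0, b1`) be the means of `a` (`b`) over the two halves,
`a' = (a0 + a1)/2`, `Da = (a0 - a1)/2`, the same for `b`. The pairs `i < 2^M ≤ j` contribute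
`a0 b1 - a1 b0 = 2 Da b' - 2 a' Db ≤ l Da² + b'²/l + l Db² + a'²/l`; the other two parts are
estimated by the induction hypothesis (for `a, b` and for the shifted sequences), and
` (a0² + a1²)/2 = a'² + Da²`, `a'² ≤ A(a²)`. The statement follows as `A(a)², A(b)² ≥ 0`. -/
def DybStmt : Prop := ∀ M : ℕ, ∃ w : ℕ → ℕ → ℝ, Wts M w ∧ ∀ (a b : ℕ → ℝ) (l : ℝ), 0 < l →
  ∑ i ∈ range (2 ^ M), ∑ j ∈ range (2 ^ M), w i j * (a i * b j - a j * b i) ≤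
    (l + M / l) * ((∑ i ∈ range (2 ^ M), (a i ^ 2 + b i ^ 2)) / 2 ^ M)

/-- A smooth version of the indicator of `x ≤ y`: `1` if `x ≤ y`, `0` if `y + τ ≤ x`. -/
def sft (τ x y : ℝ) : ℝ := max 0 (min 1 ((y + τ - x) / τ))

/-- DYC. Proof (may assume DYB; take its weights): for `t : ℝ` apply DYB to
`a i = 1[x i ≤ t] - 1[0 ≤ t]` and `b j = (1/τ) 1[x j ≤ t < x j + τ]` and integrate over `t ∈ ℝ` (all
functions are step functions with bounded support). `∫ a i ^ 2 dt = |x i|`, `∫ b j ^ 2 dt = 1/τ`,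
`∫ a i * b j dt = sft τ (x i) (x j) - γ (x j)`, where `γ y = (1/τ) ∫ t in y..y+τ, 1[0 ≤ t]` is in
`[0, 1]` (it is `sft τ 0 y`; `sft τ x y = (1/τ) ∫ t in y..y+τ, 1[x ≤ t]`). Add DYB for the constant
`a i = 1` and `b j = γ (x j)`: `∑ w i j (γ (x j) - γ (x i)) ≤ (l + M/l) * 2`. -/
def DycStmt : Prop := ∀ M : ℕ, ∃ w : ℕ → ℕ → ℝ, Wts M w ∧ ∀ (x : ℕ → ℝ) (l τ : ℝ), 0 < l → 0 < τ →
  ∑ i ∈ range (2 ^ M), ∑ j ∈ range (2 ^ M), w i j * (sft τ (x i) (x j) - sft τ (x j) (x i)) ≤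
    (l + M / l) * ((∑ i ∈ range (2 ^ M), |x i|) / 2 ^ M + 1 / τ + 2)

/-- PIG. Proof (may assume DYC, TPR): take `τ = c θ / 10`, `x i = d (z i)` and integrate DYC over `d`.
For `i < j < 2^M`: `sft τ x y ≥ 1[x ≤ y]`, so `E sft τ (d (z i)) (d (z j)) ≥ P (d (z i) < d (z j)) ≥
1/2 + c` (`nobal`, and it is `> 1/2`). `sft τ x y ≤ 1[x ≤ y + τ]`, so `E sft τ (d (z j)) (d (z i)) ≤
P (d (z j) < d (z i)) + P (0 ≤ d (z j) - d (z i) ≤ τ) ≤ 1/2 - c + 10 τ / θ` (TPR; the sum of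
`P (d (z i) < d (z j))` and `P (d (z j) < d (z i))` is at most `1`). So the left side is at least
`M c`. `E |d (z i)| ≤ |a| + E |Y| ≤ C + 4 + √C ≤ 2 C + 5` by the field `m2`. Take `l = √M` (the case
`M = 0` is trivial): `M c ≤ 2 √M (2 C + 7 + 10/(c θ))`. -/
def PigStmt : Prop := ∀ (c : ℝ) (Z : KSys c) (C θ : ℝ) (M : ℕ) (z : ℕ → Fin Z.n), 0 < c → 0 ≤ C →
  0 < θ → (∀ i < 2 ^ M, |Z.a (z i)| ≤ C) →
  (∀ i j, i < j → j < 2 ^ M → z i ≠ z j ∧ 1 / 2 < Z.μ.real {d | d (z i) < d (z j)} ∧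
    θ ≤ Z.dist (z i) (z j)) →
  (M : ℝ) * c ^ 2 ≤ 4 * (2 * C + 7 + 10 / (c * θ)) ^ 2

/-- TRA. Transitive subtournaments. Proof: induction on `N`. For `N + 1` let `x ∈ T`; one of the sets
`{y ∈ T | y ≠ x, r x y}`, `{y ∈ T | y ≠ x, r y x}` has at least `2 ^ N` elements (their union has
`#T - 1 ≥ 2 ^ (N+1) - 1`); take a sequence of length `N` in it and put `x` in front of it (first case)
or at its end (second case). -/
def TraStmt : Prop := ∀ (α : Type) (r : α → α → Prop) (T : Finset α) (N : ℕ), 2 ^ N ≤ T.card →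
  (∀ x ∈ T, ∀ y ∈ T, x ≠ y → r x y ∨ r y x) →
  ∃ z : ℕ → α, (∀ i < N, z i ∈ T) ∧ ∀ i j, i < j → j < N → z i ≠ z j ∧ r (z i) (z j)

/-- CLU. Few types in a window. Proof (may assume PIG, TRA): let `M` be such that
`M c² > 4 (2 C + 7 + 10/(c θ))²` and `k0 = 2 ^ (2 ^ M)`. Let `Q ⊆ Z.W C` be a maximal subset with
`θ ≤ Z.dist p q` for all `p ≠ q` in `Q` (a subset of largest cardinality with this property). Every
`p ∈ Z.W C` has `q ∈ Q` with `Z.dist p q < θ` (for `p ∈ Q` take `q = p`: `Z.dist p p = 0`; `dist` is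
symmetric). If `Q.card ≥ k0` apply TRA to `Q`, `N = 2 ^ M` and `r p q := 1/2 < P (d p < d q)` (by
`noties` and `nobal` one of `P (d p < d q)`, `P (d q < d p)`, whose sum is `1`, is more than `1/2`); PIG
gives a contradiction. -/
def CluStmt : Prop := ∀ c C θ : ℝ, 0 < c → 0 ≤ C → 0 < θ → ∃ k0 : ℕ, ∀ Z : KSys c,
  ∃ Q : Finset (Fin Z.n), Q ⊆ Z.W C ∧ Q.card ≤ k0 ∧ ∀ p ∈ Z.W C, ∃ q ∈ Q, Z.dist p q < θ

end

end Pool.Agent.Helper75.KS
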