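import Pool.Agent.Helper75.KS.GoalsB

/-!
# Every strict order on a finite set has a linear extension
-/

namespace Pool.Agent.Helper75.KS

open Finset
open Pool.Agent.Helper89.GP (LX po Ex Pr hh mem_LX)

theorem exists_linext' {α : Type} [Fintype α] [PartialOrder α] :
    ∃ f : α ≃ Fin (Fintype.card α), StrictMono f := by
  classical
  let t : α ≃ LinearExtension α := Equiv.refl α
  let _ : Fintype (LinearExtension α) := Fintype.ofEquiv α t
  have hc : Fintype.card (LinearExtension α) = Fintype.card α := (Fintype.card_congr t).symm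
  let e := Fintype.orderIsoFinOfCardEq (LinearExtension α) hc
  refine ⟨t.trans e.symm.toEquiv, ?_⟩
  intro a b hab
  have h1 : t a ≤ t b := (toLinearExtension (α := α)).monotone hab.le
  have h2 : t a ≠ t b := fun h => hab.ne (t.injective h)
  exact e.symm.strictMono (lt_of_le_of_ne h1 h2)

/-- The weak order of a strict order. -/
def pot {n : ℕ} {R : Fin n → Fin n → Prop} (hR : Spo R) : PartialOrder (Fin n) where
  le := fun a b => a = b ∨ R a b
  lt := fun a b => (a = b ∨ R a b) ∧ ¬ (b = a ∨ R b a)
  lt_iff_le_not_ge := fun _ _ => Iff.rfl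
  le_refl := fun a => Or.inl rfl
  le_trans := by
    rintro a b c (rfl | h1) (rfl | h2)
    · exact Or.inl rfl
    · exact Or.inr h2
    · exact Or.inr h1
    · exact Or.inr (hR.tr _ _ _ h1 h2)
  le_antisymm := by
    rintro a b (h1 | h1) (h2 | h2)
    · exact h1
    · exact h1
    · exact h2.symm
    · exact absurd (hR.tr _ _ _ h1 h2) (hR.ir a)

theorem lxn : LxnStmt := by
  intro n R hR
  obtain ⟨f, hf⟩ := @exists_linext' (Fin n) _ (pot hR)
  have hc : Fintype.card (Fin n) = n := Fintype.card_fin n
  refine ⟨f.trans (finCongr hc), ?_⟩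
  rw [mem_LX]
  intro a b hab
  have h1 : f a < f b := by
    apply hf
    refine ⟨Or.inr hab, ?_⟩
    rintro (h | h)
    · subst h
      exact hR.ir _ hab
    · exact hR.ir a (hR.tr _ _ _ hab h)
  exact h1

end Pool.Agent.Helper75.KS
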