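import Pool.Agent.Helper75.KS.Final

/-!
# The Kahn-Saks conjecture: two nearly perfect comparisons in posets of large width
-/

namespace Pool.Agent.Helper75.KS

open MeasureTheory Filter Topology Finset
open Pool.Agent.Helper44.KS
open Pool.Agent.Helper89.GP (LX po Ex Pr hh mem_LX Pr_def Pr_split po_lt Pr_eq_zero Pr_congr Pr_true
  Pr_add card_pos_real)

variable {n : ℕ}

/-- The order generated by one more relation. -/
def adt (R : Fin n → Fin n → Prop) (u v : Fin n) : Fin n → Fin n → Prop :=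
  fun p q => R p q ∨ ((p = u ∨ R p u) ∧ (q = v ∨ R v q))

theorem adt_spo {R : Fin n → Fin n → Prop} (hR : Spo R) {u v : Fin n} (hne' : u ≠ v)
    (hnvu : ¬ R v u) : Spo (adt R u v) := by
  have hno : ∀ p, ¬ ((p = u ∨ R p u) ∧ (p = v ∨ R v p)) := by
    rintro p ⟨h | h, h' | h'⟩
    · exact hne' (h.symm.trans h')
    · subst h
      exact hnvu h'
    · subst h'
      exact hnvu h
    · exact hnvu (hR.tr _ _ _ h' h)
  constructor
  · rintro x y z (hxy | ⟨hx, hy⟩) (hyz | ⟨hy', hz⟩)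
    · exact Or.inl (hR.tr _ _ _ hxy hyz)
    · refine Or.inr ⟨?_, hz⟩
      rcases hy' with h | h
      · subst h
        exact Or.inr hxy
      · exact Or.inr (hR.tr _ _ _ hxy h)
    · refine Or.inr ⟨hx, ?_⟩
      rcases hy with h | h
      · subst h
        exact Or.inr hyz
      · exact Or.inr (hR.tr _ _ _ h hyz)
    · exact Or.inr ⟨hx, hz⟩
  · rintro x (h | h)
    · exact hR.ir _ h
    · exact hno x h

theorem LX_adt (R : Fin n → Fin n → Prop) (u v : Fin n) :
    LX (adt R u v) = (LX R).filter fun σ => σ u < σ v := by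
  ext σ
  rw [mem_filter, mem_LX, mem_LX]
  constructor
  · intro h
    exact ⟨fun p q hpq => h p q (Or.inl hpq), h u v (Or.inr ⟨Or.inl rfl, Or.inl rfl⟩)⟩
  · rintro ⟨h, huv2⟩ p q (hpq | ⟨hp1, hq1⟩)
    · exact h p q hpq
    · have e1 : σ p ≤ σ u := by
        rcases hp1 with rfl | h'
        · exact le_rfl
        · exact (h _ _ h').le
      have e2 : σ v ≤ σ q := by
        rcases hq1 with rfl | h'
        · exact le_rfl
        · exact (h _ _ h').le
      exact lt_of_le_of_lt e1 (lt_of_lt_of_le huv2 e2)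

theorem adt_anti {R : Fin n → Fin n → Prop} (hR : Spo R) {u v : Fin n} (hne' : u ≠ v)
    (hnvu : ¬ R v u) {A : Finset (Fin n)} {W : ℕ} (hAc : 2 * W ≤ A.card)
    (hA : ∀ a ∈ A, ∀ b ∈ A, ¬ R a b) :
    ∃ A' : Finset (Fin n), W ≤ A'.card ∧ ∀ x ∈ A', ∀ y ∈ A', ¬ adt R u v x y := by
  classical
  have hno : ∀ p, ¬ ((p = u ∨ R p u) ∧ (p = v ∨ R v p)) := by
    rintro p ⟨h | h, h' | h'⟩
    · exact hne' (h.symm.trans h')
    · subst h
      exact hnvu h'
    · subst h'
      exact hnvu h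
    · exact hnvu (hR.tr _ _ _ h' h)
  let D := A.filter fun p => p = u ∨ R p u
  let U := A.filter fun p => p = v ∨ R v p
  have hDU : Disjoint D U := by
    rw [Finset.disjoint_left]
    intro p hpD hpU
    exact hno p ⟨(mem_filter.1 hpD).2, (mem_filter.1 hpU).2⟩
  have hDA : D ⊆ A := filter_subset _ _
  have hUA : U ⊆ A := filter_subset _ _
  have hc : D.card + U.card ≤ A.card := by
    rw [← card_union_of_disjoint hDU]
    exact card_le_card (union_subset hDA hUA)
  have hD : (A \ D).card = A.card - D.card := card_sdiff_of_subset hDA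
  have hU : (A \ U).card = A.card - U.card := card_sdiff_of_subset hUA
  rcases le_total D.card U.card with hle | hle
  · refine ⟨A \ D, by omega, ?_⟩
    rintro x hx y hy (h | h)
    · exact hA x (mem_sdiff.1 hx).1 y (mem_sdiff.1 hy).1 h
    · exact (mem_sdiff.1 hx).2 (mem_filter.2 ⟨(mem_sdiff.1 hx).1, h.1⟩)
  · refine ⟨A \ U, by omega, ?_⟩
    rintro x hx y hy (h | h)
    · exact hA x (mem_sdiff.1 hx).1 y (mem_sdiff.1 hy).1 h
    · exact (mem_sdiff.1 hy).2 (mem_filter.2 ⟨(mem_sdiff.1 hy).1, h.2⟩)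

/-- Two nearly perfect comparisons in posets of large width. -/
def TwaStmt : Prop := ∀ ε : ℝ, 0 < ε → ∃ W : ℕ, ∀ (n : ℕ) (R : Fin n → Fin n → Prop), Spo R →
  (∃ A : Finset (Fin n), W ≤ A.card ∧ ∀ a ∈ A, ∀ b ∈ A, ¬ R a b) → TwB ε R

theorem twa (hKSF : KsfStmt) (hLXN : LxnStmt) : TwaStmt := by
  classical
  intro ε hε
  have hδ : 0 < min (ε / 2) (1 / 10) := by positivity
  obtain ⟨W, hW⟩ := hKSF (min (ε / 2) (1 / 10)) hδ
  refine ⟨2 * W, ?_⟩
  rintro n R hR ⟨A, hAc, hA⟩
  have hne := hLXN n R hR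
  have hpos : (0 : ℝ) < (LX R).card := card_pos_real hne
  have hle1 : min (ε / 2) (1 / 10) ≤ ε / 2 := min_le_left _ _
  have hle2 : min (ε / 2) (1 / 10) ≤ 1 / 10 := min_le_right _ _
  obtain ⟨a, b, hab, hp⟩ := hW n R hR ⟨A, by omega, hA⟩
  refine ⟨a, b, hab, ?_⟩
  intro u v huv
  have hb1 := bal_cards hne hab hp u v huv
  have hb1' : |(((LX R).filter fun σ => σ u < σ v).card : ℝ) - ((LX R).card : ℝ) / 2| ≤
      1 / 10 * ((LX R).card : ℝ) := hb1.trans (mul_le_mul_of_nonneg_right hle2 hpos.le)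
  have hne' : u ≠ v := by
    rcases huv with ⟨rfl, rfl⟩ | ⟨rfl, rfl⟩
    · exact hab
    · exact hab.symm
  have hnvu : ¬ R v u := by
    intro h
    have h4 : (LX R).filter (fun σ => σ u < σ v) = ∅ := by
      rw [filter_eq_empty_iff]
      intro σ hσ
      exact not_lt_of_gt (mem_LX.1 hσ _ _ h)
    rw [h4, card_empty, abs_le] at hb1'
    have := hb1'.1
    push_cast at this
    linarith
  have hLX := LX_adt R u v
  have hspo := adt_spo hR hne' hnvu
  obtain ⟨c', d', hcd, hp'⟩ := hW n (adt R u v) hspo (adt_anti hR hne' hnvu hAc hA)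
  refine ⟨c', d', hcd, ?_⟩
  intro w z hwz
  have hb2 := bal_cards (hLXN n _ hspo) hcd hp' w z hwz
  rw [hLX, filter_filter] at hb2
  have hN1 : (((LX R).filter fun σ => σ u < σ v).card : ℝ) ≤ ((LX R).card : ℝ) := by
    exact_mod_cast card_filter_le _ _
  exact two_num hε.le hpos.le (hb1.trans (mul_le_mul_of_nonneg_right hle1 hpos.le)) hN1
    (hb2.trans (mul_le_mul_of_nonneg_right hle1 (Nat.cast_nonneg _)))

/-- The final statement, for antichains. -/
def FinalAStmt : Prop := ∀ ε : ℝ, 0 < ε → ∃ W : ℕ, ∀ (α : Type) [Fintype α] [PartialOrder α],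
    (∃ s : Finset α, IsAntichain (· ≤ ·) (s : Set α) ∧ W ≤ s.card) → TwT ε α

theorem finalA (hTWA : TwaStmt) (hLXN : LxnStmt) : FinalAStmt := by
  classical
  intro ε hε
  have hδ : 0 < min ε (1 / 4) := by positivity
  obtain ⟨W, hW⟩ := hTWA (min ε (1 / 4)) hδ
  refine ⟨W, ?_⟩
  rintro α _ _ ⟨s, hs, hcard⟩
  obtain ⟨e, hRspo⟩ : ∃ (e : α ≃ Fin (Fintype.card α)), Spo (fun p q => e.symm p < e.symm q) :=
    ⟨Fintype.equivFin α, ⟨fun a b c h1 h2 => lt_trans h1 h2, fun a h => lt_irrefl _ h⟩⟩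
  set R : Fin (Fintype.card α) → Fin (Fintype.card α) → Prop := fun p q => e.symm p < e.symm q
    with hRdef
  have hR : ∀ a b, R (e a) (e b) ↔ a < b := by
    intro a b
    simp only [hRdef, Equiv.symm_apply_apply]
  have hne := hLXN _ R hRspo
  have h0 : {f : α ≃ Fin (Fintype.card α) | StrictMono (f : α → Fin (Fintype.card α))}.ncard =
      (LX R).card := by
    have h := Pool.Agent.Helper22.KS.trf_key e R hR (fun _ => True)
    simpa using h
  have h1 : ∀ u v : α, {f : α ≃ Fin (Fintype.card α) |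
      StrictMono (f : α → Fin (Fintype.card α)) ∧ f u < f v}.ncard =
      ((LX R).filter fun σ => σ (e u) < σ (e v)).card := by
    intro u v
    have h := Pool.Agent.Helper22.KS.trf_key e R hR (fun σ => σ (e u) < σ (e v))
    simpa using h
  have h2 : ∀ u v w z : α, {f : α ≃ Fin (Fintype.card α) |
      StrictMono (f : α → Fin (Fintype.card α)) ∧ f u < f v ∧ f w < f z}.ncard =
      ((LX R).filter fun σ => σ (e u) < σ (e v) ∧ σ (e w) < σ (e z)).card := by
    intro u v w z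
    have h := Pool.Agent.Helper22.KS.trf_key e R hR
      (fun σ => σ (e u) < σ (e v) ∧ σ (e w) < σ (e z))
    simpa using h
  have hT := TwT_of_TwB (lt_of_le_of_lt (min_le_right _ _) (by norm_num)) e R hR hne h0 h1 h2
    (hW _ R hRspo ⟨s.map e.toEmbedding, by rw [card_map]; exact hcard, by
      intro a' ha b' hb
      rw [Finset.mem_map] at ha hb
      obtain ⟨a, ha, rfl⟩ := ha
      obtain ⟨b, hb, rfl⟩ := hb
      intro hab
      have hab' : a < b := (hR a b).1 hab
      exact hs (mem_coe.2 ha) (mem_coe.2 hb) hab'.ne hab'.le⟩)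
  obtain ⟨a, b, hab, hba, h⟩ := hT
  refine ⟨a, b, hab, hba, ?_⟩
  intro u v huv
  obtain ⟨c, d, hcd, h⟩ := h u v huv
  refine ⟨c, d, hcd, ?_⟩
  intro w z hwz
  have h3 := h w z hwz
  have h4 : min ε (1 / 4) * (({f : α ≃ Fin (Fintype.card α) |
      StrictMono (f : α → Fin (Fintype.card α))}.ncard : ℕ) : ℝ) ≤
      ε * (({f : α ≃ Fin (Fintype.card α) |
      StrictMono (f : α → Fin (Fintype.card α))}.ncard : ℕ) : ℝ) :=
    mul_le_mul_of_nonneg_right (min_le_left _ _) (Nat.cast_nonneg _)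
  exact ⟨h3.1.trans h4, h3.2.trans h4⟩

end Pool.Agent.Helper75.KS
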