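import Pool.Agent.Helper44.KS.Main
import Pool.Agent.Helper4.KS.PAD
import Pool.Agent.Helper30.KS.SYS
import Pool.Agent.Helper35.KS.SYB
import Pool.Agent.Helper35.KS.RIE
import Pool.Agent.Helper8.KS.FLM
import Pool.Agent.Helper20.KS.LLN
import Pool.Agent.Helper62.KS.EXM
import Pool.Agent.Helper94.KS.STR
import Pool.Agent.Helper12.KS.PRB
import Pool.Agent.Helper12.KS.EHA
import Pool.Agent.Helper96.KS.GMM
import Pool.Agent.Helper90.KS.MOM
import Pool.Agent.Helper90.KS.KSF
import Pool.Agent.Helper3.KS.ORD
import Pool.Agent.Helper32.KS.LCV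
import Pool.Agent.Helper32.KS.EHB
import Pool.Agent.Helper15.KS.CNT
import Pool.Agent.Helper19.KS.ENE
import Pool.Agent.Helper49.KS.SCB
import Pool.Agent.Helper74.KS.SCA
import Pool.Agent.Helper75.KS.LXN
import Pool.Agent.Helper75.KS.TwoA

/-!
# The Kahn-Saks conjecture: assembly, part A
-/

namespace Pool.Agent.Helper75.KS

theorem all_str : StrStmt := Pool.Agent.Helper94.KS.str
theorem all_prb : PrbStmt := Pool.Agent.Helper12.KS.prb all_str
theorem all_exm : ExmStmt := Pool.Agent.Helper62.KS.exm all_str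
theorem all_gmm : GmmStmt := Pool.Agent.Helper96.KS.gmm
theorem all_mom : MomStmt := Pool.Agent.Helper90.KS.mom all_exm all_gmm all_prb
theorem all_ord : OrdStmt := Pool.Agent.Helper3.KS.ord all_exm all_prb
theorem all_lcv : LcvStmt := Pool.Agent.Helper32.KS.lcv all_prb
theorem all_cnt : CntStmt := Pool.Agent.Helper15.KS.cnt
theorem all_ene : EneStmt := Pool.Agent.Helper19.KS.ene
theorem all_syb : SybStmt :=
  Pool.Agent.Helper35.KS.syb all_prb all_mom all_ord all_lcv all_cnt all_ene
theorem all_rie : RieStmt := Pool.Agent.Helper35.KS.rie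
theorem all_lln : LlnStmt := Pool.Agent.Helper20.KS.lln all_prb all_gmm all_rie
theorem all_flm : FlmStmt := Pool.Agent.Helper8.KS.flm all_exm all_lln
theorem all_sys : SysStmt := Pool.Agent.Helper30.KS.sys all_syb all_flm
theorem all_pad : PadStmt := Pool.Agent.Helper4.KS.pad
theorem all_eha : EhaStmt := Pool.Agent.Helper12.KS.eha
theorem all_ehb : EhbStmt := Pool.Agent.Helper32.KS.ehb
theorem all_sca : ScaStmt := Pool.Agent.Helper74.KS.sca all_eha all_ehb
theorem all_scb : ScbStmt := Pool.Agent.Helper49.KS.scb all_sca lxn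

/-- Balanced pairs if some element has a large deviation. -/
theorem all_ksg : KsgStmt := ksg all_pad all_sys Pool.Agent.Helper44.KS.s_main

/-- Balanced pairs in posets of large width. -/
theorem all_ksf : KsfStmt :=
  Pool.Agent.Helper90.KS.ksf all_scb lxn all_pad all_sys Pool.Agent.Helper44.KS.s_main

theorem all_twa : TwaStmt := twa all_ksf lxn

theorem all_finalA : FinalAStmt := finalA all_twa lxn

end Pool.Agent.Helper75.KS
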