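import Pool.Agent.Helper75.KS.AllA
import Pool.Agent.Helper27.KS.StbAll

/-!
# The Kahn-Saks conjecture: assembly, part S (large fluctuations)
-/

namespace Pool.Agent.Helper75.KS

theorem all_tws : TwsStmt := tws all_ksg Pool.Agent.Helper27.KS.stb75

/-- The final statement. -/
theorem all_final : FinalStmt := final all_tws all_scb lxn

end Pool.Agent.Helper75.KS
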