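import Pool.Agent.Helper75.KS.Two
import Pool.Agent.Helper22.KS.TRF

/-!
# The Kahn-Saks conjecture: final statement
-/

namespace Pool.Agent.Helper75.KS

open MeasureTheory Filter Topology Finset
open Pool.Agent.Helper44.KS
open Pool.Agent.Helper89.GP (LX po Ex Pr hh mem_LX Pr_def Pr_split po_lt Pr_eq_zero Pr_congr Pr_true
  Pr_add card_pos_real Pr_eq_Ex Ex_mono Ex_mul)

/-- The conclusion for types. -/
def TwT (ε : ℝ) (α : Type) [Fintype α] [PartialOrder α] : Prop :=
  ∃ a b : α, ¬ a ≤ b ∧ ¬ b ≤ a ∧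
    ∀ u v : α, ((u = a ∧ v = b) ∨ (u = b ∧ v = a)) →
      ∃ c d : α, c ≠ d ∧
        ∀ w z : α, ((w = c ∧ z = d) ∨ (w = d ∧ z = c)) →
          |(({f : α ≃ Fin (Fintype.card α) |
              StrictMono (f : α → Fin (Fintype.card α)) ∧ f u < f v}.ncard : ℕ) : ℝ) -
            (({f : α ≃ Fin (Fintype.card α) |
              StrictMono (f : α → Fin (Fintype.card α))}.ncard : ℕ) : ℝ) / 2| ≤
            ε * (({f : α ≃ Fin (Fintype.card α) |
              StrictMono (f : α → Fin (Fintype.card α))}.ncard : ℕ) : ℝ) ∧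
          |(({f : α ≃ Fin (Fintype.card α) |
              StrictMono (f : α → Fin (Fintype.card α)) ∧ f u < f v ∧ f w < f z}.ncard : ℕ) : ℝ) -
            (({f : α ≃ Fin (Fintype.card α) |
              StrictMono (f : α → Fin (Fintype.card α))}.ncard : ℕ) : ℝ) / 4| ≤
            ε * (({f : α ≃ Fin (Fintype.card α) |
              StrictMono (f : α → Fin (Fintype.card α))}.ncard : ℕ) : ℝ)

variable {n : ℕ}

theorem TwT_of_TwB {α : Type} [Fintype α] [PartialOrder α] {ε : ℝ} (hε : ε < 1 / 2)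
    (e : α ≃ Fin (Fintype.card α)) (R : Fin (Fintype.card α) → Fin (Fintype.card α) → Prop)
    (hR : ∀ a b, R (e a) (e b) ↔ a < b) (hne : (LX R).Nonempty)
    (h0 : {f : α ≃ Fin (Fintype.card α) | StrictMono (f : α → Fin (Fintype.card α))}.ncard =
      (LX R).card)
    (h1 : ∀ u v : α, {f : α ≃ Fin (Fintype.card α) |
      StrictMono (f : α → Fin (Fintype.card α)) ∧ f u < f v}.ncard =
      ((LX R).filter fun σ => σ (e u) < σ (e v)).card)
    (h2 : ∀ u v w z : α, {f : α ≃ Fin (Fintype.card α) |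
      StrictMono (f : α → Fin (Fintype.card α)) ∧ f u < f v ∧ f w < f z}.ncard =
      ((LX R).filter fun σ => σ (e u) < σ (e v) ∧ σ (e w) < σ (e z)).card)
    (h : TwB ε R) : TwT ε α := by
  classical
  obtain ⟨a', b', hab, h⟩ := h
  obtain ⟨a, rfl⟩ := e.surjective a'
  obtain ⟨b, rfl⟩ := e.surjective b'
  have hab' : a ≠ b := fun h => hab (congrArg e h)
  have hpos : (0 : ℝ) < (LX R).card := card_pos_real hne
  -- the two orders occur
  have hocc : ∀ u v : α, ((u = a ∧ v = b) ∨ (u = b ∧ v = a)) → ¬ v ≤ u := by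
    intro u v huv hle
    have hne' : v ≠ u := by
      rcases huv with ⟨rfl, rfl⟩ | ⟨rfl, rfl⟩
      · exact hab'.symm
      · exact hab'
    obtain ⟨c, d, _, hh⟩ := h (e u) (e v) (by
      rcases huv with ⟨rfl, rfl⟩ | ⟨rfl, rfl⟩
      · exact Or.inl ⟨rfl, rfl⟩
      · exact Or.inr ⟨rfl, rfl⟩)
    have h3 := (hh c d (Or.inl ⟨rfl, rfl⟩)).1
    have h4 : (LX R).filter (fun σ => σ (e u) < σ (e v)) = ∅ := by
      rw [filter_eq_empty_iff]
      intro σ hσ
      exact not_lt_of_gt (mem_LX.1 hσ _ _ ((hR v u).2 (lt_of_le_of_ne hle hne')))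
    rw [h4, card_empty, abs_le] at h3
    have := h3.1
    push_cast at this
    nlinarith
  refine ⟨a, b, ?_, ?_, ?_⟩
  · exact hocc b a (Or.inr ⟨rfl, rfl⟩)
  · exact hocc a b (Or.inl ⟨rfl, rfl⟩)
  · intro u v huv
    obtain ⟨c', d', hcd, hh⟩ := h (e u) (e v) (by
      rcases huv with ⟨rfl, rfl⟩ | ⟨rfl, rfl⟩
      · exact Or.inl ⟨rfl, rfl⟩
      · exact Or.inr ⟨rfl, rfl⟩)
    obtain ⟨c, rfl⟩ := e.surjective c'
    obtain ⟨d, rfl⟩ := e.surjective d'
    refine ⟨c, d, fun h => hcd (congrArg e h), ?_⟩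
    intro w z hwz
    have h3 := hh (e w) (e z) (by
      rcases hwz with ⟨rfl, rfl⟩ | ⟨rfl, rfl⟩
      · exact Or.inl ⟨rfl, rfl⟩
      · exact Or.inr ⟨rfl, rfl⟩)
    rw [h0, h1, h2]
    exact h3

/-- A spread out position has a large deviation. -/
theorem dev_of_spread (R : Fin n → Fin n → Prop) (hne : (LX R).Nonempty) (x : Fin n) (W : ℕ)
    (h : ∀ k : ℕ, 2 * ((LX R).filter fun σ => k ≤ po σ x ∧ po σ x < k + W).card ≤ (LX R).card) :
    (W : ℝ) / 4 ≤ dev R x := by
  classical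
  have hpos : (0 : ℝ) < (LX R).card := card_pos_real hne
  set k : ℕ := ⌈hh R x - W / 2⌉₊ with hk
  have hk1 : hh R x - W / 2 ≤ k := Nat.le_ceil _
  -- outside of the interval the distance is large
  have hout : ∀ σ : Equiv.Perm (Fin n), ¬ (k ≤ po σ x ∧ po σ x < k + W) →
      (W : ℝ) / 2 ≤ |(po σ x : ℝ) - hh R x| := by
    intro σ hσ
    by_cases h1 : k ≤ po σ x
    · have h2 : k + W ≤ po σ x := by
        by_contra hcon
        exact hσ ⟨h1, by omega⟩
      have h3 : (k : ℝ) + W ≤ po σ x := by exact_mod_cast h2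
      refine le_trans ?_ (le_abs_self _)
      linarith
    · have h2 : po σ x < ⌈hh R x - W / 2⌉₊ := by
        rw [← hk]; omega
      have h3 : (po σ x : ℝ) < hh R x - W / 2 := Nat.lt_ceil.1 h2
      rw [abs_sub_comm]
      refine le_trans ?_ (le_abs_self _)
      linarith
  have h1 : (W : ℝ) / 2 * (1 / 2) ≤ Ex R fun σ => (W : ℝ) / 2 *
      (if ¬ (k ≤ po σ x ∧ po σ x < k + W) then 1 else 0) := by
    rw [Ex_mul, ← Pr_eq_Ex]
    apply mul_le_mul_of_nonneg_left _ (by positivity)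
    rw [Pr_def, le_div_iff₀ hpos]
    have h2 := h k
    have h3 : ((LX R).filter fun σ => k ≤ po σ x ∧ po σ x < k + W).card +
        ((LX R).filter fun σ => ¬ (k ≤ po σ x ∧ po σ x < k + W)).card = (LX R).card :=
      card_filter_add_card_filter_not _
    have h4 : (LX R).card ≤ 2 * ((LX R).filter fun σ =>
        ¬ (k ≤ po σ x ∧ po σ x < k + W)).card := by omega
    have h5 : ((LX R).card : ℝ) ≤ 2 * (((LX R).filter fun σ =>
        ¬ (k ≤ po σ x ∧ po σ x < k + W)).card : ℝ) := by exact_mod_cast h4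
    linarith
  have h2 : (Ex R fun σ => (W : ℝ) / 2 *
      (if ¬ (k ≤ po σ x ∧ po σ x < k + W) then 1 else 0)) ≤ dev R x := by
    unfold dev
    apply Ex_mono
    intro σ _
    split_ifs with h3
    · rw [mul_zero]; exact abs_nonneg _
    · rw [mul_one]; exact hout σ h3
  linarith

/-- The final statement. -/
def FinalStmt : Prop := ∀ ε : ℝ, 0 < ε → ∃ W : ℕ, ∀ (α : Type) [Fintype α] [PartialOrder α],
    ((∃ s : Finset α, IsAntichain (· ≤ ·) (s : Set α) ∧ W ≤ s.card) ∨
      ∃ x : α, ∀ k : ℕ, 2 * {f : α ≃ Fin (Fintype.card α) |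
          StrictMono (f : α → Fin (Fintype.card α)) ∧ k ≤ (f x : ℕ) ∧ (f x : ℕ) < k + W}.ncard ≤
        {f : α ≃ Fin (Fintype.card α) | StrictMono (f : α → Fin (Fintype.card α))}.ncard) →
    TwT ε α

theorem final (hTWS : TwsStmt) (hSCB : ScbStmt) (hLXN : LxnStmt) : FinalStmt := by
  classical
  intro ε hε
  have hδ : 0 < min ε (1 / 4) := by positivity
  obtain ⟨S0, hS0⟩ := hTWS (min ε (1 / 4)) hδ
  obtain ⟨W0, hW0⟩ := exists_nat_ge (10 * |S0|)
  refine ⟨W0 + 10, ?_⟩
  intro α _ _ hα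
  obtain ⟨e, hRspo⟩ : ∃ (e : α ≃ Fin (Fintype.card α)), Spo (fun p q => e.symm p < e.symm q) :=
    ⟨Fintype.equivFin α, ⟨fun a b c h1 h2 => lt_trans h1 h2, fun a h => lt_irrefl _ h⟩⟩
  set R : Fin (Fintype.card α) → Fin (Fintype.card α) → Prop := fun p q => e.symm p < e.symm q
    with hRdef
  have hR : ∀ a b, R (e a) (e b) ↔ a < b := by
    intro a b
    simp only [hRdef, Equiv.symm_apply_apply]
  have hne := hLXN _ R hRspo
  have h0 : {f : α ≃ Fin (Fintype.card α) | StrictMono (f : α → Fin (Fintype.card α))}.ncard =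
      (LX R).card := by
    have h := Pool.Agent.Helper22.KS.trf_key e R hR (fun _ => True)
    simpa using h
  have h1 : ∀ u v : α, {f : α ≃ Fin (Fintype.card α) |
      StrictMono (f : α → Fin (Fintype.card α)) ∧ f u < f v}.ncard =
      ((LX R).filter fun σ => σ (e u) < σ (e v)).card := by
    intro u v
    have h := Pool.Agent.Helper22.KS.trf_key e R hR (fun σ => σ (e u) < σ (e v))
    simpa using h
  have h2 : ∀ u v w z : α, {f : α ≃ Fin (Fintype.card α) |
      StrictMono (f : α → Fin (Fintype.card α)) ∧ f u < f v ∧ f w < f z}.ncard =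
      ((LX R).filter fun σ => σ (e u) < σ (e v) ∧ σ (e w) < σ (e z)).card := by
    intro u v w z
    have h := Pool.Agent.Helper22.KS.trf_key e R hR (fun σ => σ (e u) < σ (e v) ∧ σ (e w) < σ (e z))
    simpa using h
  have hdev : ∃ x, S0 ≤ dev R x := by
    rcases hα with ⟨s, hs, hcard⟩ | ⟨x, hx⟩
    · obtain ⟨x, _, hx⟩ := hSCB _ R (s.map e.toEmbedding) hRspo (by rw [card_map]; omega) (by
        intro a' ha b' hb
        rw [Finset.mem_map] at ha hb
        obtain ⟨a, ha, rfl⟩ := ha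
        obtain ⟨b, hb, rfl⟩ := hb
        intro hab
        have hab' : a < b := (hR a b).1 hab
        exact hs (mem_coe.2 ha) (mem_coe.2 hb) hab'.ne hab'.le)
      refine ⟨x, le_trans ?_ hx⟩
      rw [card_map]
      have h3 : (W0 : ℝ) + 10 ≤ s.card := by exact_mod_cast hcard
      have h4 := le_abs_self S0
      linarith
    · refine ⟨e x, ?_⟩
      have h3 := dev_of_spread R hne (e x) (W0 + 10) (by
        intro k
        have h4 := Pool.Agent.Helper22.KS.trf_key e R hR (fun σ => k ≤ po σ (e x) ∧ po σ (e x) < k + (W0 + 10))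
        have h5 := hx k
        rw [h0] at h5
        have h6 : {f : α ≃ Fin (Fintype.card α) |
            StrictMono (f : α → Fin (Fintype.card α)) ∧ k ≤ (f x : ℕ) ∧
              (f x : ℕ) < k + (W0 + 10)}.ncard =
            ((LX R).filter fun σ => k ≤ po σ (e x) ∧ po σ (e x) < k + (W0 + 10)).card := by
          rw [← h4]
          congr 1
          ext f
          simp [po]
        rw [h6] at h5
        exact h5)
      refine le_trans ?_ h3
      have h4 := le_abs_self S0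
      push_cast
      have h5 := abs_nonneg S0
      linarith
  have hT := TwT_of_TwB (lt_of_le_of_lt (min_le_right _ _) (by norm_num)) e R hR hne h0 h1 h2
    (hS0 _ R hne hdev)
  -- monotone in ε
  obtain ⟨a, b, hab, hba, h⟩ := hT
  refine ⟨a, b, hab, hba, ?_⟩
  intro u v huv
  obtain ⟨c, d, hcd, h⟩ := h u v huv
  refine ⟨c, d, hcd, ?_⟩
  intro w z hwz
  have h3 := h w z hwz
  have h4 : min ε (1 / 4) * (({f : α ≃ Fin (Fintype.card α) |
      StrictMono (f : α → Fin (Fintype.card α))}.ncard : ℕ) : ℝ) ≤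
      ε * (({f : α ≃ Fin (Fintype.card α) |
      StrictMono (f : α → Fin (Fintype.card α))}.ncard : ℕ) : ℝ) :=
    mul_le_mul_of_nonneg_right (min_le_left _ _) (Nat.cast_nonneg _)
  exact ⟨h3.1.trans h4, h3.2.trans h4⟩

end Pool.Agent.Helper75.KS
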