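import Pool.Agent.Helper89.GP.GoalsA
import Pool.Agent.Helper75.KS.GoalsB

/-!
# The Kahn-Saks conjecture: goals, part X (the exponential model, from posets to systems)

The chamber `Ch σ = {x | (∀ a, 0 < x a) ∧ ∀ a b, σ a < σ b → x a < x b}` and the goals PEEL, MST, GMB,
GMC, GAM are in Pool/Agent/Helper89/GP/GoalsA.lean; they are proved (you may import the proofs):
`Pool.Agent.Helper96.GP.peel : PeelStmt` (Pool/Agent/Helper96/GP/PEEL.lean),
`Pool.Agent.Helper12.GP.mst : PeelStmt → MstStmt` (MST.lean),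
`Pool.Agent.Helper94.GP.gmb : PeelStmt → MstStmt → GmbStmt` (GMB.lean),
`Pool.Agent.Helper49.GP.gmc : PeelStmt → GmbStmt → GmcStmt` (GMC.lean),
`Pool.Agent.Helper42.GP.gam : GmcStmt → GamStmt` (GAM.lean). The files Pool/Agent/Helper83/GP/Cone.lean and
Pool/Agent/Helper33/GP/SMO.lean contain similar arguments (decomposition of the cone, truncation).
Every goal may be used as a hypothesis where the docstring says so.
-/

namespace Pool.Agent.Helper75.KS

open MeasureTheory Filter Topology Finset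
open Pool.Agent.Helper44.KS
open Pool.Agent.Helper89.GP (LX po Ex Pr hh Ch)

noncomputable section

variable {n : ℕ}

/-- The weight. -/
def wt (x : Fin n → ℝ) : ENNReal := ENNReal.ofReal (Real.exp (-⨆ a, x a))

/-- The cone of `R`. -/
def Cn (R : Fin n → Fin n → Prop) : Set (Fin n → ℝ) :=
  {x | (∀ a, 0 < x a) ∧ ∀ a b, R a b → x a < x b}

/-- The law of the increasing sequence of the points. -/
def P0 (n : ℕ) : Measure (Fin n → ℝ) :=
  (volume.restrict (Ch (1 : Equiv.Perm (Fin n)))).withDensity wt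

/-- The exponential model of a random linear extension of `R`. -/
def mu (R : Fin n → Fin n → Prop) : Measure (Fin n → ℝ) :=
  ((LX R).card : ENNReal)⁻¹ • (volume.restrict (Cn R)).withDensity wt

/-- STR. The model is the average, over the linear extensions, of the images of `P0`. Proof: for every
permutation `σ` the map `x ↦ x ∘ σ` preserves the volume (`volume_measurePreserving_piCongrLeft`, see
`gam_mp` in Pool/Agent/Helper42/GP/GAM.lean), maps `Ch 1` onto `Ch σ` and keeps the supremum, so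
` (P0 n).map (fun x a => x (σ a)) = (volume.restrict (Ch σ)).withDensity wt`. Up to the null set of the
`x` with two equal coordinates, `Cn R` is the disjoint union of the `Ch σ`, `σ ∈ LX R` (for injective
positive `x` let `σ` be the permutation which sorts it). -/
def StrStmt : Prop := ∀ (n : ℕ) (R : Fin n → Fin n → Prop), (LX R).Nonempty →
  mu R = ((LX R).card : ENNReal)⁻¹ • ∑ σ ∈ LX R, (P0 n).map fun x a => x (σ a)

/-- PRB. Proof (may assume STR): `P0 n` has total mass `1` by MST; `mu R` is an average of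
probability measures. -/
def PrbStmt : Prop := (∀ n : ℕ, IsProbabilityMeasure (P0 n)) ∧
  (∀ n : ℕ, ∀ᵐ x ∂(P0 n), x ∈ Ch (1 : Equiv.Perm (Fin n))) ∧
  ∀ (n : ℕ) (R : Fin n → Fin n → Prop), (LX R).Nonempty → IsProbabilityMeasure (mu R)

/-- EXM. Expectations. Proof (may assume STR): `integral_smul_measure`, `integral_finset_sum_measure`,
`integral_map`, `integrable_map_measure`. The second part: the same for the indicator of `A`. -/
def ExmStmt : Prop := ∀ (n : ℕ) (R : Fin n → Fin n → Prop), (LX R).Nonempty →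
  (∀ f : (Fin n → ℝ) → ℝ, Measurable f →
    (∀ σ ∈ LX R, Integrable (fun x => f fun a => x (σ a)) (P0 n)) →
    Integrable f (mu R) ∧ ∫ x, f x ∂(mu R) = Ex R fun σ => ∫ x, f (fun a => x (σ a)) ∂(P0 n)) ∧
  (∀ A : Set (Fin n → ℝ), MeasurableSet A →
    (mu R).real A = Ex R fun σ => (P0 n).real {x | (fun a => x (σ a)) ∈ A})

/-- GMM. Moments of the points. Proof: GMB with `φ r = r, r²`: `∫ r ^ k exp (-r) r ^ j / j! =
(j + k)! / j!`; GMC for the differences of `i < j`: `x j - x i` has the law with the density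
`exp (-r) r ^ (j - i - 1) / (j - i - 1)!`, with mean `j - i` and variance `j - i`. For `j < i` use
symmetry, for `i = j` everything is `0`. -/
def GmmStmt : Prop := ∀ (n : ℕ) (i j : Fin n),
  Integrable (fun x => x j) (P0 n) ∧ ∫ x, x j ∂(P0 n) = (j : ℝ) + 1 ∧
  Integrable (fun x => x j ^ 2) (P0 n) ∧
  ∫ x, (x j - x i - ((j : ℝ) - (i : ℝ))) ^ 2 ∂(P0 n) = |(j : ℝ) - (i : ℝ)|

/-- MOM. Proof (may assume EXM, GMM, PRB): the first part: `∫ x z ∂mu = Ex (po z + 1)`. For the second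
part: for `σ ∈ LX R` the integral under `P0` of `|x (σ p) - x (σ q) - (hh p - hh q)|` is at most
`∫ |x (σ p) - x (σ q) - (po p - po q)| + |po p - hh p| + |po q - hh q|`, and the first term is at most
`√|po p - po q|` (Cauchy-Schwarz, GMM); take `Ex` and use `Ex √X ≤ √(Ex X)` and
`|po p - po q| ≤ |hh p - hh q| + |po p - hh p| + |po q - hh q|`. -/
def MomStmt : Prop := ∀ (n : ℕ) (R : Fin n → Fin n → Prop), (LX R).Nonempty →
  (∀ z, Integrable (fun x => x z) (mu R) ∧ ∫ x, x z ∂(mu R) = hh R z + 1) ∧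
  ∀ p q, ∫ x, |x p - x q - (hh R p - hh R q)| ∂(mu R) ≤
    √(|hh R p - hh R q| + dev R p + dev R q) + dev R p + dev R q

/-- ORD. Proof (may assume EXM, PRB): for `x ∈ Ch 1` (almost all `x`) and `σ ∈ LX R`:
`x (σ u) < x (σ v)` iff `σ u < σ v`, that is `po σ u < po σ v`. -/
def OrdStmt : Prop := ∀ (n : ℕ) (R : Fin n → Fin n → Prop) (u v : Fin n), (LX R).Nonempty →
  (mu R).real {x | x u < x v} = (Pr R fun σ => po σ u < po σ v) ∧
  (u ≠ v → ∀ᵐ x ∂(mu R), x u ≠ x v)

/-- LCV. Log-concavity. Proof (may assume PRB): it is enough to prove the inequality for the finite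
measure ` (volume.restrict (Cn R)).withDensity wt` (the factors `c ^ (1-t) c ^ t = c`). For `T : ℕ` let
`f_T, g_T, h_T` be `exp (-⨆ a, x a)` times the indicator of `A ∩ Cn R ∩ {x | ∀ a, x a < T}` (and the
same for `B`, `C`). By `Pool.Agent.Helper9.FR.pl_all` (Pool/Agent/Helper9/FR/PL.lean), with `R = T`
and `C = 1`: ` (∫ f_T) ^ (1-t) * (∫ g_T) ^ t ≤ ∫ h_T`; the hypothesis holds since `Cn R` and
`{x | ∀ a, x a < T}` are convex and `⨆ ((1-t) x + t y) ≤ (1-t) ⨆ x + t ⨆ y` (for `n = 0` the supremum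
is `0`; if one of the two factors on the left side is `0` then the left side is `0`). Let `T → ∞`
(monotone or dominated convergence; the total mass is finite). See
Pool/Agent/Helper33/GP/SMO.lean, which does exactly this for slabs. -/
def LcvStmt : Prop := ∀ (n : ℕ) (R : Fin n → Fin n → Prop) (A B C : Set (Fin n → ℝ)) (t : ℝ),
  (LX R).Nonempty → IsOpen A → IsOpen B → IsOpen C → 0 < t → t < 1 →
  (∀ u ∈ A, ∀ v ∈ B, (1 - t) • u + t • v ∈ C) →
  ((mu R).real A) ^ (1 - t) * ((mu R).real B) ^ t ≤ (mu R).real C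

/-- SYB. One system. Proof (may assume PRB, MOM, ORD, LCV, CNT, ENE): let `S = dev R x`,
`L v = fun p => (v p - v x) / S` and `μ = (mu R).map L`, `Z.x = x`, `Z.S = S`. `∫ d p ∂μ =
(hh R p - hh R x)/S`. `ref`: `L v x = 0`. `noties`, `nobal`: ORD and `Std.nb`. `lc`: LCV for the
preimages under `L`. `m1`, `m2`: MOM and `dev ≤ S`: with `a = (hh p - hh x)/S` the integral is at most
`√((|a| + 2)/S) + 2`, which is `≤ √3 + 2` if `|a| ≤ S` and `≤ √|a| + √2 + 2` always. `cnt`: CNT.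
`energy`: ENE and ORD. The last claim: `map_measureReal_apply`. -/
def SybStmt : Prop := ∀ (n : ℕ) (R : Fin n → Fin n → Prop) (x : Fin n) (c K : ℝ), 0 < c →
  Std c K R x → ∃ Z : KSys c, Z.S = dev R x ∧ ∀ (G : ℝ → ℝ) (ε : ℝ), Continuous G →
    Z.μ.real {d | ε < |(∑ p, G (d p)) / Z.S - ∫ y, G y|} =
      (mu R).real {v | ε < |(∑ p, G ((v p - v x) / dev R x)) / dev R x - ∫ y, G y|}

/-- RIE. Riemann sums. Proof: `G` is uniformly continuous and `0` off `[-L, L]`;
`∫ G = ∑ k ∈ ℤ, ∫ y in k/S..(k+1)/S, G y`, at most `2 L S + 2` of the terms are not `0`, and each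
differs from `G (k/S) / S` by at most `ω (1/S) / S`. The sum over `k : Fin n` contains all the indices
`k - r` with `|k - r| ≤ L S`. -/
def RieStmt : Prop := ∀ (G : ℝ → ℝ) (L ε : ℝ), Continuous G → 1 ≤ L → (∀ y, L < |y| → G y = 0) →
  0 < ε → ∃ S0 : ℝ, 1 ≤ S0 ∧ ∀ (S : ℝ) (n : ℕ) (r : Fin n), S0 ≤ S → (L + 1) * S ≤ (r : ℕ) →
    ((r : ℕ) : ℝ) + (L + 1) * S ≤ n →
    |(∑ k : Fin n, G ((((k : ℕ) : ℝ) - ((r : ℕ) : ℝ)) / S)) / S - ∫ y, G y| ≤ ε

/-- LLN. The points fill the line. Proof (may assume PRB, GMM, RIE): let `L ≥ 1` with `G = 0` off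
`[-L, L]`, `B = sup |G|`, `K0 = 2 L + 2`. By RIE it is enough that
`X = (1/S) ∑ k, |G ((x k - x r)/S) - G ((k - r)/S)|` is `> ε/2` with probability `≤ η`. Let `ε1 > 0`
be small and `δ ∈ (0, 1)` with `|G s - G t| ≤ ε1` for `|s - t| ≤ δ`. For `|k - r| ≤ 2 L S` Chebyshev
and GMM give `P (|x k - x r - (k - r)| > δ S) ≤ 2 L S / (δ S)²`, so the expectation of the term is at
most `ε1 + 4 B L / (δ² S)`; there are at most `5 L S` such `k` (for `S` large). For `|k - r| > 2 L S`:
`G ((k - r)/S) = 0`, and `G ((x k - x r)/S) ≠ 0` implies `|x k - x r| ≤ L S`, hence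
`|x k' - x r| ≤ L S` for `k' = r ± ⌈2 L S⌉` (in `Fin n` by the margins; `x` is increasing), which has
probability at most `⌈2 L S⌉ / (L S)² ≤ 3 / (L S)` for each sign. So
`P (X > ε/2) ≤ 6/(L S) + (2/ε) 5 L (ε1 + 4 B L/(δ² S)) ≤ η` for `ε1` small and then `S` large. -/
def LlnStmt : Prop := ∀ (G : ℝ → ℝ) (ε η : ℝ), Continuous G → HasCompactSupport G → 0 < ε → 0 < η →
  ∃ S0 K0 : ℝ, 1 ≤ S0 ∧ 0 ≤ K0 ∧ ∀ (S : ℝ) (n : ℕ) (r : Fin n), S0 ≤ S → K0 * S ≤ (r : ℕ) →
    ((r : ℕ) : ℝ) + K0 * S ≤ n →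
    (P0 n).real {x | ε < |(∑ k : Fin n, G ((x k - x r) / S)) / S - ∫ y, G y|} ≤ η

/-- FLM. Proof (may assume EXM, LLN, PRB): for `σ ∈ LX R` and `v = x ∘ σ`:
`∑ p, G ((v p - v x0)/S) = ∑ k, G ((x k - x r)/S)` with `r = σ x0` (reindex by `σ`); `Std.lo`,
`Std.hi` give the margins for `r`; average over `σ` (EXM, second part). -/
def FlmStmt : Prop := ∀ (G : ℝ → ℝ) (ε η : ℝ), Continuous G → HasCompactSupport G → 0 < ε → 0 < η →
  ∃ S0 K0 : ℝ, ∀ (n : ℕ) (R : Fin n → Fin n → Prop) (x0 : Fin n) (c K : ℝ), Std c K R x0 →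
    K0 ≤ K → S0 ≤ dev R x0 →
    (mu R).real {v | ε < |(∑ p, G ((v p - v x0) / dev R x0)) / dev R x0 - ∫ y, G y|} ≤ η

/-- SYS (`SysStmt` in GoalsB). Proof (may assume SYB, FLM): choose `Z N` by SYB for `Std c N (R N)
(x N)`. `Z.S = dev → ∞`. `Filling`: given `G`, `ε` and `η > 0` take `S0, K0` of FLM; for `N` large
`N ≥ K0` and `dev ≥ S0`, so the probability is `≤ η`. -/
def SysGoal : Prop := SysStmt

end

end Pool.Agent.Helper75.KS
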