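import Pool.Agent.Helper75.KS.GoalsB

/-!
# The Kahn-Saks conjecture: balanced pairs for large fluctuations
-/

namespace Pool.Agent.Helper75.KS

open MeasureTheory Filter Topology Finset
open Pool.Agent.Helper44.KS
open Pool.Agent.Helper89.GP (LX po Ex Pr hh)

/-- KSG. Balanced pairs in posets with an element whose position has a large mean deviation. -/
def KsgStmt : Prop := ∀ ε : ℝ, 0 < ε → ∃ S0 : ℝ, ∀ (n : ℕ) (R : Fin n → Fin n → Prop),
  (LX R).Nonempty → (∃ x, S0 ≤ dev R x) →
  ∃ u v, u ≠ v ∧ |(Pr R fun σ => po σ u < po σ v) - 1 / 2| ≤ ε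

theorem dev_nonneg {n : ℕ} (R : Fin n → Fin n → Prop) (z : Fin n) : 0 ≤ dev R z := by
  unfold dev Ex
  exact div_nonneg (Finset.sum_nonneg fun _ _ => abs_nonneg _) (Nat.cast_nonneg _)

theorem ksg (hPAD : PadStmt) (hSYS : SysStmt) (hMAIN : S_MAIN) : KsgStmt := by
  intro ε hε
  by_cases hhalf : ε < 1 / 2
  · by_contra hcon
    push Not at hcon
    -- for every N a standard system
    have key : ∀ N : ℕ, ∃ (n' : ℕ) (R' : Fin n' → Fin n' → Prop) (x' : Fin n'),
        Std ε (N : ℝ) R' x' ∧ (N : ℝ) + 1 ≤ dev R' x' := by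
      intro N
      obtain ⟨n, R, hne, ⟨x, hx⟩, hnb⟩ := hcon ((N : ℝ) + 1)
      obtain ⟨x0, _, hx0⟩ := Finset.exists_max_image (univ : Finset (Fin n)) (dev R)
        ⟨x, mem_univ x⟩
      have hx1 : (N : ℝ) + 1 ≤ dev R x0 := hx.trans (hx0 x (mem_univ x))
      have hN0 : (0 : ℝ) ≤ N := Nat.cast_nonneg N
      obtain ⟨n', R', x', h1, h2⟩ := hPAD n R x0 ε (N : ℝ) hhalf hne
        (fun z => hx0 z (mem_univ z)) (by linarith) hnb
      exact ⟨n', R', x', h1, by rw [h2]; exact hx1⟩
    choose n' R' x' hstd hdev using key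
    obtain ⟨Z, hZ1, hZ2⟩ := hSYS ε n' R' x' hε hstd (by
      refine tendsto_atTop_mono hdev ?_
      exact tendsto_atTop_add_const_right _ _ tendsto_natCast_atTop_atTop)
    exact hMAIN ε hε Z hZ1 hZ2
  · push Not at hhalf
    refine ⟨1, ?_⟩
    rintro n R hne ⟨x, hx⟩
    -- there are two different elements, since dev > 0
    have h2 : ∃ y : Fin n, y ≠ x := by
      by_contra hcon
      push Not at hcon
      have hpo : ∀ σ : Equiv.Perm (Fin n), po σ x = 0 := by
        intro σ
        unfold po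
        have hz : 0 < n := lt_of_le_of_lt (Nat.zero_le _) x.2
        have h3 : σ x = x := hcon _
        have h4 : (⟨0, hz⟩ : Fin n) = x := hcon _
        rw [h3, ← h4]
      have hh0 : hh R x = 0 := by
        unfold hh Ex
        simp [hpo]
      have hd : dev R x = 0 := by
        unfold dev Ex
        simp [hpo, hh0]
      linarith
    obtain ⟨y, hy⟩ := h2
    refine ⟨x, y, hy.symm, ?_⟩
    have h3 := Pool.Agent.Helper89.GP.Pr_nonneg (R := R) (fun σ => po σ x < po σ y)
    have h4 := Pool.Agent.Helper89.GP.Pr_le_one (R := R) (fun σ => po σ x < po σ y)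
    rw [abs_le]
    constructor <;> linarith

end Pool.Agent.Helper75.KS
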