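import Pool.Agent.Helper42.KS.Goals

set_option autoImplicit false

namespace Pool.Agent.Helper42.KS.PkSM

open Finset Polynomial

lemma coeff_sub_pow (k N : ℕ) (a : ℤ) :
    ((X - C a : Polynomial ℤ) ^ k).coeff N = (-a) ^ (k - N) * (k.choose N : ℤ) := by
  have : (X - C a : Polynomial ℤ) = X + C (-a) := by rw [C_neg]; ring
  rw [this, coeff_X_add_C_pow]

noncomputable def Pol (k : ℕ) (a b c : ℤ) : Polynomial ℤ :=
  (X - C a) ^ k - (X - C b) ^ k + C c

lemma Pol_deg (k : ℕ) (hk : 2 ≤ k) (a b c : ℤ) : (Pol k a b c).natDegree ≤ k - 1 := by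
  rw [Polynomial.natDegree_le_iff_coeff_eq_zero]
  intro N hN
  have hN' : k ≤ N := by omega
  simp only [Pol, coeff_add, coeff_sub, coeff_sub_pow, coeff_C]
  rcases Nat.lt_or_ge k N with h | h
  · simp [Nat.choose_eq_zero_of_lt h, show N ≠ 0 by omega]
  · have : N = k := le_antisymm h hN'
    subst this
    simp [show N ≠ 0 by omega]

lemma Pol_coeff (k : ℕ) (hk : 2 ≤ k) (a b c : ℤ) : (Pol k a b c).coeff (k - 1) = k * (b - a) := by
  simp only [Pol, coeff_add, coeff_sub, coeff_sub_pow, coeff_C]
  have h1 : k - (k - 1) = 1 := by omega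
  have h2 : k.choose (k - 1) = k := by
    have := Nat.choose_symm (n := k) (k := 1) (by omega)
    rw [Nat.choose_one_right] at this
    exact this
  rw [h1, h2, if_neg (by omega)]
  ring

lemma Pol_ne (k : ℕ) (hk : 2 ≤ k) (a b c : ℤ) (hab : b ≠ a) : Pol k a b c ≠ 0 := by
  intro h
  have := Pol_coeff k hk a b c
  rw [h, coeff_zero] at this
  have h2 : (k : ℤ) * (b - a) = 0 := this.symm
  rcases mul_eq_zero.1 h2 with h3 | h3
  · have : k = 0 := by exact_mod_cast h3
    omega
  · exact hab (by linarith)

lemma fiber (k R d : ℕ) (hk : 2 ≤ k) (y : Fin 2 → Fin d → ℤ) (ν : Fin d) (hν : y 0 ν ≠ y 1 ν)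
    (z : Fin d → ℤ) :
    ((eqd k R 1 y).filter (fun x => Function.update x ν 0 = z)).card ≤ k - 1 := by
  classical
  set c : ℤ := ∑ μ ∈ univ.erase ν, ((z μ - y 1 μ) ^ k - (z μ - y 0 μ) ^ k) with hc
  have hP := Pol_ne k hk (y 1 ν) (y 0 ν) c hν
  calc ((eqd k R 1 y).filter (fun x => Function.update x ν 0 = z)).card
      ≤ (Pol k (y 1 ν) (y 0 ν) c).roots.toFinset.card := by
        apply Finset.card_le_card_of_injOn (fun x => x ν)
        · intro x hx
          simp only [coe_filter, Set.mem_ofPred_eq] at hx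
          obtain ⟨hx, hz⟩ := hx
          simp only [eqd, mem_filter] at hx
          have h1 := hx.2.2 1
          have h2 : ∑ μ, ((x μ - y 1 μ) ^ k - (x μ - y 0 μ) ^ k) = 0 := by
            rw [sum_sub_distrib]; linarith
          rw [← Finset.add_sum_erase univ _ (mem_univ ν)] at h2
          have h3 : ∑ μ ∈ univ.erase ν, ((x μ - y 1 μ) ^ k - (x μ - y 0 μ) ^ k) = c := by
            rw [hc]
            apply sum_congr rfl
            intro μ hμ
            have : z μ = x μ := by
              rw [← hz, Function.update_of_ne (ne_of_mem_erase hμ)]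
            rw [this]
          rw [h3] at h2
          simp only [mem_coe, Multiset.mem_toFinset]
          rw [mem_roots hP]
          simp only [IsRoot, Pol, eval_add, eval_sub, eval_pow, eval_X, eval_C]
          exact h2
        · intro x hx x' hx' h
          simp only [coe_filter, Set.mem_ofPred_eq] at hx hx'
          have hz := hx.2.trans hx'.2.symm
          funext μ
          by_cases hμ : μ = ν
          · rw [hμ]; exact h
          · have := congrFun hz μ
            rwa [Function.update_of_ne hμ, Function.update_of_ne hμ] at this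
    _ ≤ Multiset.card (Pol k (y 1 ν) (y 0 ν) c).roots := Multiset.toFinset_card_le _
    _ ≤ (Pol k (y 1 ν) (y 0 ν) c).natDegree := card_roots' _
    _ ≤ k - 1 := Pol_deg k hk _ _ _

lemma box_card (d R : ℕ) : (box d R).card = R ^ d := by
  simp [box, Fintype.card_piFinset]

lemma face_card (d R : ℕ) (ν : Fin d) (hR : 1 ≤ R) :
    (Fintype.piFinset (fun μ : Fin d => if μ = ν then ({0} : Finset ℤ) else Finset.Ico 0 (R : ℤ))).card
      = R ^ (d - 1) := by
  rw [Fintype.card_piFinset]
  rw [← Finset.mul_prod_erase univ _ (mem_univ ν)]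
  rw [Finset.prod_congr rfl (g := fun _ => R)]
  · simp
  · intro μ hμ
    simp [ne_of_mem_erase hμ]

lemma off (k R d : ℕ) (hk : 2 ≤ k) (hR : 1 ≤ R) (y : Fin 2 → Fin d → ℤ) (hy : y 0 ≠ y 1) :
    (eqd k R 1 y).card ≤ (k - 1) * R ^ (d - 1) := by
  classical
  obtain ⟨ν, hν⟩ := Function.ne_iff.1 hy
  rw [← face_card d R ν hR]
  apply Finset.card_le_mul_card_image_of_maps_to (f := fun x => Function.update x ν 0)
  · intro x hx
    simp only [eqd, mem_filter, box, Fintype.mem_piFinset] at hx
    rw [Fintype.mem_piFinset]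
    intro μ
    by_cases hμ : μ = ν
    · subst hμ; simp
    · rw [Function.update_of_ne hμ, if_neg hμ]
      exact hx.1 μ
  · intro z hz
    exact fiber k R d hk y ν hν z

theorem thm : G_SM := by
  classical
  intro k R d E hk hR hd
  have hcoin : coin k R 1 E ≤
      ∑ y ∈ Fintype.piFinset (fun _ : Fin 2 => E),
        ((if y 0 = y 1 then R ^ d else 0) + (k - 1) * R ^ (d - 1)) := by
    unfold coin
    apply Finset.sum_le_sum
    intro y hy
    split_ifs with h
    · refine le_trans (card_le_card (filter_subset _ _)) ?_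
      rw [box_card]
      omega
    · rw [zero_add]
      exact off k R d hk hR y h
  have h2 : ∑ y ∈ Fintype.piFinset (fun _ : Fin 2 => E),
        ((if y 0 = y 1 then R ^ d else 0) + (k - 1) * R ^ (d - 1)) ≤
      E.card * R ^ d + (k - 1) * E.card ^ 2 * R ^ (d - 1) := by
    rw [sum_add_distrib, ← sum_filter, sum_const, sum_const]
    have h3 : ((Fintype.piFinset (fun _ : Fin 2 => E)).filter (fun y => y 0 = y 1)).card ≤ E.card := by
      apply Finset.card_le_card_of_injOn (fun y => y 0)
      · intro y hy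
        simp only [coe_filter, Set.mem_ofPred_eq, Fintype.mem_piFinset] at hy
        exact hy.1 0
      · intro y hy y' hy' h
        simp only [coe_filter, Set.mem_ofPred_eq, Fintype.mem_piFinset] at hy hy'
        funext i
        fin_cases i
        · exact h
        · have h1 := hy.2; have h2 := hy'.2
          simp only at h
          change y 1 = y' 1
          rw [← h1, ← h2, h]
    have h4 : (Fintype.piFinset (fun _ : Fin 2 => E)).card = E.card ^ 2 := by
      simp [Fintype.card_piFinset]
    rw [h4, smul_eq_mul, smul_eq_mul]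
    have := Nat.mul_le_mul_right (R ^ d) h3
    nlinarith [this]
  have h5 := hcoin.trans h2
  have h6 : ((coin k R 1 E : ℕ) : ℝ) ≤ ((E.card * R ^ d + (k - 1) * E.card ^ 2 * R ^ (d - 1) : ℕ) : ℝ) := by
    exact_mod_cast h5
  rw [Nat.cast_add, Nat.cast_mul, Nat.cast_mul, Nat.cast_mul, Nat.cast_sub (by omega)] at h6
  push_cast at h6
  exact h6

end Pool.Agent.Helper42.KS.PkSM
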