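import Pool.Agent.Helper75.KS.Two
import Pool.Agent.Helper27.KS.GoalsF

/-!
# The Kahn-Saks conjecture: adaptor for STB
-/

namespace Pool.Agent.Helper75.KS

open Finset
open Pool.Agent.Helper89.GP (LX po Ex Pr hh mem_LX Pr_def Pr_eq_zero)

theorem stb_ad (h : Pool.Agent.Helper27.KS.StbStmt) : StbStmt := by
  classical
  obtain ⟨c', S2, hc, _, h⟩ := h
  refine ⟨c', S2, hc, ?_⟩
  intro n R u v hne hS hPr x
  obtain ⟨x0, _, hx0⟩ := Finset.exists_max_image (univ : Finset (Fin n)) (dev R) ⟨x, mem_univ x⟩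
  have huv : u ≠ v := by
    rintro rfl
    rw [Pr_eq_zero (fun σ _ => lt_irrefl _)] at hPr
    norm_num at hPr
  obtain ⟨y, hy⟩ := hS
  obtain ⟨z, hz⟩ := h n R u v x0 hne huv hPr (fun z => hx0 z (mem_univ z))
    (hy.trans (hx0 y (mem_univ y)))
  exact ⟨z, (mul_le_mul_of_nonneg_left (hx0 x (mem_univ x)) hc.le).trans hz⟩

end Pool.Agent.Helper75.KS
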